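import Pool.Agent.Q158.Col2.Step

/-! The law of large numbers for the parities in all intervals. -/

set_option autoImplicit false

namespace Pool.Agent.Q158.Col2

open Finset Filter Topology
open Pool.Agent.TH930.EBQ

/-- the number of odd steps is near to half of the time, up to the time `τ` -/
def G (τ e : ℝ) (x : ℤ) : Prop := ∀ t : ℕ, (t : ℝ) ≤ τ → |(ones (wd 1 t x) : ℝ) - t / 2| ≤ e

/-- The law up to the time `c W`. -/
def R (c ε : ℝ) : Prop := ∃ δ C : ℝ, 0 < δ ∧ δ ≤ 1 ∧ 0 < C ∧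
  ∀ (W : ℕ) (u : ℤ) (F : Finset ℤ) (g : ℤ → ℝ), (∀ x ∈ F, |x - u| ≤ 2 ^ W) →
    (∀ x ∈ F, 0 ≤ g x ∧ g x ≤ 1) → (∀ x ∈ F, ¬ G (c * W) (ε * W + C) x) →
    ∑ x ∈ F, g x ≤ C * (2 : ℝ) ^ ((1 - δ) * W)

theorem wd_take (a b : ℕ) (x : ℤ) : (wd 1 (a + b) x).take a = wd 1 a x := by
  rw [wd_append, List.take_append_of_le_length (by rw [wd_length]),
    List.take_of_length_le (by rw [wd_length])]

theorem ones_mono (a b : ℕ) (x : ℤ) : ones (wd 1 a x) ≤ ones (wd 1 (a + b) x) ∧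
    ones (wd 1 (a + b) x) ≤ ones (wd 1 a x) + b := by
  rw [wd_append, ones_append]
  have := ones_le_length (wd 1 b ((T 1)^[a] x))
  rw [wd_length] at this
  omega

/-- all prefixes are balanced -/
def PBal (s : ℕ) (v : List Bool) : Prop := ∀ j ≤ v.length, Bal s (v.take j)

open Classical in
lemma bad_PBal (s n : ℕ) (μ : ℝ) (hμ : 0 ≤ μ) :
    ∑ v ∈ words n, (if PBal s v then 0 else 1 : ℝ) ≤
      (n + 1) * (2 * (2 ^ n * Real.exp (n * (μ ^ 2 * (Real.log 3) ^ 2 / 2) - μ * s * Real.log 4))) := by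
  have h1 : ∀ v ∈ words n, (if PBal s v then 0 else 1 : ℝ) ≤
      ∑ j ∈ range (n + 1), (if Bal s (v.take j) then 0 else 1 : ℝ) := by
    intro v hv
    have hl : v.length = n := mem_words.1 hv
    have hnn : ∀ j ∈ range (n + 1), (0 : ℝ) ≤ (if Bal s (v.take j) then 0 else 1 : ℝ) := by
      intro j _
      split_ifs <;> norm_num
    by_cases h : PBal s v
    · rw [if_pos h]
      exact sum_nonneg hnn
    · rw [if_neg h]
      unfold PBal at h
      push Not at h
      obtain ⟨j, hj, hb⟩ := h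
      have h2 := single_le_sum hnn (mem_range.2 (by omega : j < n + 1))
      rw [if_neg hb] at h2
      exact h2
  refine (sum_le_sum h1).trans ?_
  rw [sum_comm]
  have h2 : ∀ j ∈ range (n + 1), ∑ v ∈ words n, (if Bal s (v.take j) then 0 else 1 : ℝ) ≤
      2 * (2 ^ n * Real.exp (n * (μ ^ 2 * (Real.log 3) ^ 2 / 2) - μ * s * Real.log 4)) := by
    intro j hj
    rw [mem_range] at hj
    obtain ⟨m, rfl⟩ := Nat.exists_eq_add_of_le (show j ≤ n by omega)
    rw [sum_words_add]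
    have h3 : ∀ u ∈ words j, ∑ v ∈ words m, (if Bal s ((u ++ v).take j) then 0 else 1 : ℝ) =
        2 ^ m * (if Bal s u then 0 else 1 : ℝ) := by
      intro u hu
      have hl : u.length = j := mem_words.1 hu
      have h4 : ∀ v ∈ words m, (if Bal s ((u ++ v).take j) then 0 else 1 : ℝ) =
          (if Bal s u then 0 else 1 : ℝ) := by
        intro v _
        rw [List.take_append_of_le_length (by omega), List.take_of_length_le (by omega)]
      rw [sum_congr rfl h4, sum_const, card_words, nsmul_eq_mul]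
      push_cast
      rfl
    rw [sum_congr rfl h3, ← mul_sum]
    have h5 := mul_le_mul_of_nonneg_left (bad_Bal s j μ hμ) (show (0 : ℝ) ≤ 2 ^ m by positivity)
    refine h5.trans ?_
    have h6 : (j : ℝ) * (μ ^ 2 * (Real.log 3) ^ 2 / 2) - μ * s * Real.log 4 ≤
        ((j + m : ℕ) : ℝ) * (μ ^ 2 * (Real.log 3) ^ 2 / 2) - μ * s * Real.log 4 := by
      have : (j : ℝ) * (μ ^ 2 * (Real.log 3) ^ 2 / 2) ≤
          ((j + m : ℕ) : ℝ) * (μ ^ 2 * (Real.log 3) ^ 2 / 2) := by
        apply mul_le_mul_of_nonneg_right _ (by positivity)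
        push_cast
        linarith [(Nat.cast_nonneg m : (0 : ℝ) ≤ m)]
      linarith
    have h7 := Real.exp_le_exp.2 h6
    calc (2 : ℝ) ^ m * (2 * (2 ^ j * Real.exp (j * (μ ^ 2 * (Real.log 3) ^ 2 / 2) -
        μ * s * Real.log 4))) = 2 * (2 ^ (j + m) * Real.exp (j * (μ ^ 2 * (Real.log 3) ^ 2 / 2) -
        μ * s * Real.log 4)) := by rw [pow_add]; ring
      _ ≤ _ := by gcongr
  refine (sum_le_card_nsmul _ _ _ h2).trans (le_of_eq ?_)
  rw [card_range, nsmul_eq_mul]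
  push_cast
  ring

theorem Bal_dev {s : ℕ} {v : List Bool} (h : Bal s v) : |(ones v : ℝ) - v.length / 2| ≤ s := by
  have hl3 : 0 < Real.log 3 := Real.log_pos (by norm_num)
  have hl2 : 0 < Real.log 2 := Real.log_pos (by norm_num)
  have hl23 : Real.log 2 ≤ Real.log 3 := Real.log_le_log (by norm_num) (by norm_num)
  have e9 : Real.log 9 = 2 * Real.log 3 := by
    rw [show (9 : ℝ) = 3 ^ 2 by norm_num, Real.log_pow]; push_cast; ring
  have e4 : Real.log 4 = 2 * Real.log 2 := by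
    rw [show (4 : ℝ) = 2 ^ 2 by norm_num, Real.log_pow]; push_cast; ring
  have h1 : ((9 : ℝ) ^ ones v) ≤ 3 ^ v.length * 4 ^ s := by exact_mod_cast h.1
  have h2 : (3 : ℝ) ^ v.length ≤ 9 ^ ones v * 4 ^ s := by exact_mod_cast h.2
  have h3 := Real.log_le_log (by positivity) h1
  have h4 := Real.log_le_log (by positivity) h2
  rw [Real.log_mul (by positivity) (by positivity), Real.log_pow, Real.log_pow, Real.log_pow, e9,
    e4] at h3 h4
  have h5 : (s : ℝ) * Real.log 2 ≤ s * Real.log 3 := mul_le_mul_of_nonneg_left hl23 (Nat.cast_nonneg s)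
  rw [abs_le]
  constructor
  · by_contra hcon
    push Not at hcon
    have := mul_lt_mul_of_pos_right hcon hl3
    linarith
  · by_contra hcon
    push Not at hcon
    have := mul_lt_mul_of_pos_right hcon hl3
    linarith

/-- the numeric facts for large `W` -/
theorem asym2 {ε : ℝ} (h0 : 0 < ε) (h1 : ε ≤ 1 / 16) : ∀ᶠ W : ℕ in atTop,
    W < 2 ^ ⌊ε * W⌋₊ ∧ 20 ≤ W ∧
    3 * (W * 2 ^ W / 2 ^ ⌊ε * W⌋₊ + (W + 1) * (2 * (2 ^ W * Real.exp (W * (ε ^ 2 *
      (Real.log 3) ^ 2 / 2) - ε * ⌊ε * W⌋₊ * Real.log 4)))) ≤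
        1 / 2 * (2 : ℝ) ^ ((1 - ε ^ 2 / 2) * W) := by
  have hl2 : 0 < Real.log 2 := Real.log_pos (by norm_num)
  have hl2' := Real.log_two_lt_d9
  have hl4 : Real.log 4 = 2 * Real.log 2 := by
    rw [show (4 : ℝ) = 2 ^ 2 by norm_num, Real.log_pow]; push_cast; ring
  have hl3 : Real.log 3 ≤ 8 / 5 * Real.log 2 := by
    have h : Real.log ((3 : ℝ) ^ 5) ≤ Real.log ((2 : ℝ) ^ 8) :=
      Real.log_le_log (by positivity) (by norm_num)
    rw [Real.log_pow, Real.log_pow] at h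
    push_cast at h
    linarith
  have hl30 : 0 < Real.log 3 := Real.log_pos (by norm_num)
  have hl3s : (Real.log 3) ^ 2 / 2 ≤ 9 / 10 * Real.log 2 := by
    have : (Real.log 3) ^ 2 ≤ (8 / 5 * Real.log 2) ^ 2 := pow_le_pow_left₀ hl30.le hl3 2
    nlinarith
  filter_upwards [lin_le_two h0 2, eventually_ge_atTop 20,
    lin_le_two (show 0 < ε - ε ^ 2 / 2 by nlinarith) 24,
    lin_le_two (show 0 < ε ^ 2 / 2 by positivity) 48] with W a1 a2 a3 a4
  have hW : (20 : ℝ) ≤ W := by exact_mod_cast a2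
  set s := ⌊ε * W⌋₊ with hs
  have hs1 : ε * W - 1 ≤ s := by
    have := Nat.lt_floor_add_one (ε * W)
    linarith
  have h2s : (2 : ℝ) ^ (ε * W) ≤ 2 * 2 ^ s := by
    have h3 : (2 : ℝ) ^ (ε * W) ≤ (2 : ℝ) ^ ((s : ℝ) + 1) :=
      Real.rpow_le_rpow_of_exponent_le (by norm_num) (by linarith)
    rw [Real.rpow_add (by norm_num), Real.rpow_one, Real.rpow_natCast] at h3
    linarith
  refine ⟨?_, a2, ?_⟩
  · have : (W : ℝ) < 2 ^ s := by linarith
    exact_mod_cast this
  · have p2W : (0 : ℝ) < 2 ^ W := by positivity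
    have e0 : (2 : ℝ) ^ ((1 - ε ^ 2 / 2) * W) = 2 ^ W * (2 : ℝ) ^ (-(ε ^ 2 / 2 * W)) := by
      rw [← Real.rpow_natCast (2 : ℝ) W, ← Real.rpow_add (by norm_num)]
      congr 1
      ring
    have b1 : W * (2 : ℝ) ^ W / 2 ^ s ≤ 1 / 12 * (2 ^ W * (2 : ℝ) ^ (-(ε ^ 2 / 2 * W))) := by
      rw [div_le_iff₀ (by positivity)]
      have e1 : (2 : ℝ) ^ (ε * W) = (2 : ℝ) ^ ((ε - ε ^ 2 / 2) * W) * (2 : ℝ) ^ (ε ^ 2 / 2 * W) := by
        rw [← Real.rpow_add (by norm_num)]
        congr 1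
        ring
      have e2 : (2 : ℝ) ^ (-(ε ^ 2 / 2 * W)) * (2 : ℝ) ^ (ε ^ 2 / 2 * W) = 1 := by
        rw [← Real.rpow_add (by norm_num)]; simp
      have p3 : (0 : ℝ) < (2 : ℝ) ^ (-(ε ^ 2 / 2 * W)) := by positivity
      have e3 : (24 : ℝ) * (W + 1) ≤ (2 : ℝ) ^ (-(ε ^ 2 / 2 * W)) * (2 * 2 ^ s) := by
        calc (24 : ℝ) * (W + 1) ≤ (2 : ℝ) ^ ((ε - ε ^ 2 / 2) * W) := a3
          _ = (2 : ℝ) ^ (-(ε ^ 2 / 2 * W)) * (2 : ℝ) ^ (ε * W) := by
              rw [e1]
              calc _ = (2 : ℝ) ^ ((ε - ε ^ 2 / 2) * W) * 1 := (mul_one _).symm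
                _ = _ := by rw [← e2]; ring
          _ ≤ _ := mul_le_mul_of_nonneg_left h2s p3.le
      have e4 : (W : ℝ) ≤ 1 / 12 * ((2 : ℝ) ^ (-(ε ^ 2 / 2 * W)) * 2 ^ s) := by linarith
      calc (W : ℝ) * 2 ^ W ≤ 1 / 12 * ((2 : ℝ) ^ (-(ε ^ 2 / 2 * W)) * 2 ^ s) * 2 ^ W :=
            mul_le_mul_of_nonneg_right e4 p2W.le
        _ = _ := by ring
    have b2 : (W + 1) * Real.exp (W * (ε ^ 2 * (Real.log 3) ^ 2 / 2) - ε * s * Real.log 4) ≤
        1 / 24 * (2 : ℝ) ^ (-(ε ^ 2 / 2 * W)) := by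
      have c1 : (W : ℝ) * (ε ^ 2 * (Real.log 3) ^ 2 / 2) - ε * s * Real.log 4 ≤
          Real.log 2 * (-(ε ^ 2 / 2 * W)) + (-(Real.log 2 * (ε ^ 2 / 2 * W)) + Real.log 2) := by
        have d1 : (W : ℝ) * (ε ^ 2 * (Real.log 3) ^ 2 / 2) ≤ W * ε ^ 2 * (9 / 10 * Real.log 2) := by
          have : (0 : ℝ) ≤ W * ε ^ 2 := by positivity
          calc (W : ℝ) * (ε ^ 2 * (Real.log 3) ^ 2 / 2) = W * ε ^ 2 * ((Real.log 3) ^ 2 / 2) := by ring
            _ ≤ _ := mul_le_mul_of_nonneg_left hl3s this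
        have d2 : ε * (ε * W - 1) * Real.log 4 ≤ ε * s * Real.log 4 := by
          rw [hl4]
          apply mul_le_mul_of_nonneg_right _ (by linarith)
          exact mul_le_mul_of_nonneg_left hs1 h0.le
        rw [hl4] at d2 ⊢
        have d3 : 2 * ε * Real.log 2 ≤ Real.log 2 := by nlinarith
        have d4 : 0 ≤ W * ε ^ 2 * Real.log 2 := by positivity
        nlinarith
      have c2 := Real.exp_le_exp.2 c1
      rw [Real.exp_add, Real.exp_add, Real.exp_log (by norm_num)] at c2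
      have c3 : Real.exp (Real.log 2 * (-(ε ^ 2 / 2 * W))) = (2 : ℝ) ^ (-(ε ^ 2 / 2 * W)) := by
        rw [Real.rpow_def_of_pos (by norm_num)]
      have c4 : (W + 1) * (Real.exp (-(Real.log 2 * (ε ^ 2 / 2 * W))) * 2) ≤ 1 / 24 := by
        rw [Real.exp_neg, ← Real.rpow_def_of_pos (by norm_num)]
        have : (48 : ℝ) * (W + 1) ≤ (2 : ℝ) ^ (ε ^ 2 / 2 * W) := a4
        have hp : (0 : ℝ) < (2 : ℝ) ^ (ε ^ 2 / 2 * W) := by positivity
        rw [← mul_assoc, mul_comm ((W : ℝ) + 1), mul_assoc, inv_mul_le_iff₀ hp]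
        linarith
      rw [c3] at c2
      have p3 : (0 : ℝ) < (2 : ℝ) ^ (-(ε ^ 2 / 2 * W)) := by positivity
      calc (W + 1) * Real.exp (W * (ε ^ 2 * (Real.log 3) ^ 2 / 2) - ε * s * Real.log 4)
          ≤ (W + 1) * ((2 : ℝ) ^ (-(ε ^ 2 / 2 * W)) *
            (Real.exp (-(Real.log 2 * (ε ^ 2 / 2 * W))) * 2)) :=
            mul_le_mul_of_nonneg_left c2 (by positivity)
        _ = (2 : ℝ) ^ (-(ε ^ 2 / 2 * W)) *
            ((W + 1) * (Real.exp (-(Real.log 2 * (ε ^ 2 / 2 * W))) * 2)) := by ring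
        _ ≤ (2 : ℝ) ^ (-(ε ^ 2 / 2 * W)) * (1 / 24) := mul_le_mul_of_nonneg_left c4 p3.le
        _ = _ := by ring
    rw [e0]
    have b3 := mul_le_mul_of_nonneg_left b2 p2W.le
    have e5 : (2 : ℝ) ^ W * ((W + 1) * Real.exp (W * (ε ^ 2 * (Real.log 3) ^ 2 / 2) -
      ε * s * Real.log 4)) = (W + 1) * (2 ^ W * Real.exp (W * (ε ^ 2 * (Real.log 3) ^ 2 / 2) -
      ε * s * Real.log 4)) := by ring
    rw [e5] at b3
    linarith

/-- `κ₀ = log 3 / (2 log 2)` -/
noncomputable def kap0 : ℝ := Real.log 3 / (2 * Real.log 2)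

theorem kap0_bounds : 3 / 4 ≤ kap0 ∧ kap0 ≤ 4 / 5 := by
  have hl2 : 0 < Real.log 2 := Real.log_pos (by norm_num)
  have h1 : Real.log ((2 : ℝ) ^ 3) ≤ Real.log ((3 : ℝ) ^ 2) :=
    Real.log_le_log (by positivity) (by norm_num)
  have h2 : Real.log ((3 : ℝ) ^ 5) ≤ Real.log ((2 : ℝ) ^ 8) :=
    Real.log_le_log (by positivity) (by norm_num)
  rw [Real.log_pow, Real.log_pow] at h1 h2
  push_cast at h1 h2
  unfold kap0
  constructor
  · rw [le_div_iff₀ (by positivity)]; linarith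
  · rw [div_le_iff₀ (by positivity)]; linarith

theorem R_zero {ε : ℝ} (hε : 0 < ε) : R 0 ε := by
  refine ⟨1, 1, by norm_num, by norm_num, by norm_num, ?_⟩
  intro W u F g hF hg hb
  have : F = ∅ := by
    rw [Finset.eq_empty_iff_forall_notMem]
    intro x hx
    apply hb x hx
    intro t ht
    rw [zero_mul] at ht
    have h0 : t ≤ 0 := by exact_mod_cast ht
    have h1 : t = 0 := by omega
    subst h1
    simp [wd]
    positivity
  rw [this, sum_empty]
  positivity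

theorem mass_triv {W : ℕ} {u : ℤ} {F : Finset ℤ} {g : ℤ → ℝ} (hF : ∀ x ∈ F, |x - u| ≤ 2 ^ W)
    (hg : ∀ x ∈ F, 0 ≤ g x ∧ g x ≤ 1) : ∑ x ∈ F, g x ≤ 3 * 2 ^ W := by
  have h1 : ∑ y ∈ F, g y ≤ F.card := by
    rw [card_eq_sum_ones]
    push_cast
    exact sum_le_sum (fun x hx => (hg x hx).2)
  have h2 : F ⊆ Icc (u - (2 : ℤ) ^ W) (u + 2 ^ W) := by
    intro x hx
    rw [mem_Icc]
    have := abs_le.1 (hF x hx)
    constructor <;> linarith [this.1, this.2]
  have h3 := card_le_card h2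
  rw [Int.card_Icc] at h3
  have hpos : (1 : ℤ) ≤ 2 ^ W := one_le_pow₀ (by norm_num)
  have h4 : ((u + (2 : ℤ) ^ W + 1 - (u - 2 ^ W)).toNat : ℤ) ≤ 3 * (2 ^ W) := by
    rw [Int.toNat_of_nonneg (by linarith)]
    linarith
  have h5 : (F.card : ℤ) ≤ 3 * (2 ^ W) := le_trans (by exact_mod_cast h3) h4
  have h6 : (F.card : ℝ) ≤ 3 * 2 ^ W := by exact_mod_cast h5
  exact h1.trans h6

theorem R_step {c ε : ℝ} (hε : 0 < ε) (hε1 : ε ≤ 1) (hc0 : 0 ≤ c) (hR : R c ε) :
    R (1 + kap0 * c) ε := by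
  classical
  obtain ⟨δ, C, hδ0, hδ1, hC, hR⟩ := hR
  obtain ⟨hk1, hk2⟩ := kap0_bounds
  set η : ℝ := min (δ / 16) (ε / 16) with hη
  have hη0 : 0 < η := lt_min (by positivity) (by positivity)
  have hηδ : η ≤ δ / 16 := min_le_left _ _
  have hηε : η ≤ ε / 16 := min_le_right _ _
  have hη1 : η ≤ 1 / 16 := by linarith
  obtain ⟨W0, hW0⟩ := eventually_atTop.1 ((asym2 hη0 hη1).and
    (lin_le_two (show 0 < δ / 4 by positivity) 4))
  have hδ' : η ^ 2 / 2 ≤ δ / 4 := by nlinarith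
  refine ⟨η ^ 2 / 2, 3 * 2 ^ W0 + C + 2, by positivity, by nlinarith, by positivity, ?_⟩
  intro W u F g hF hg hbad
  rcases lt_or_ge W W0 with hlt | hge
  · have h1 := mass_triv hF hg
    have h2 : (2 : ℝ) ^ W ≤ 2 ^ W0 := pow_le_pow_right₀ (by norm_num) hlt.le
    have h3 : (1 : ℝ) ≤ (2 : ℝ) ^ ((1 - η ^ 2 / 2) * W) := by
      apply Real.one_le_rpow (by norm_num)
      apply mul_nonneg _ (Nat.cast_nonneg W)
      nlinarith
    have h4 : 0 ≤ 3 * (2 : ℝ) ^ W0 + C + 2 := by positivity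
    nlinarith
  · obtain ⟨⟨b1, b2, b3⟩, b4⟩ := hW0 W hge
    set s := ⌊η * W⌋₊ with hsd
    have hsε : (s : ℝ) ≤ η * W := Nat.floor_le (by positivity)
    obtain ⟨h, f1, f2, f3, f4⟩ := h_facts W
    have hWr : (20 : ℝ) ≤ W := by exact_mod_cast b2
    have f3r : (3 : ℝ) * W < 4 * (h + 1) := by exact_mod_cast f3
    have f4r : (10 : ℝ) * h ≤ 8 * W := by exact_mod_cast f4
    have hs16 : (s : ℝ) ≤ 1 / 16 * W :=
      hsε.trans (mul_le_mul_of_nonneg_right hη1 (Nat.cast_nonneg W))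
    have g3 : 3 * s ≤ h := by
      have : (3 : ℝ) * s ≤ h := by linarith
      exact_mod_cast this
    have g5 : h + s + 2 ≤ W := by
      have : (h : ℝ) + s + 2 ≤ W := by linarith
      exact_mod_cast this
    -- the windows are long enough
    have hkapW : kap0 * W ≤ ((h + s + 2 : ℕ) : ℝ) := by
      have hl2 : 0 < Real.log 2 := Real.log_pos (by norm_num)
      have e1 : (3 : ℝ) ^ W ≤ 4 ^ (h + 1) := by exact_mod_cast f2.le
      have e2 := Real.log_le_log (by positivity) e1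
      rw [Real.log_pow, Real.log_pow] at e2
      have e4 : Real.log 4 = 2 * Real.log 2 := by
        rw [show (4 : ℝ) = 2 ^ 2 by norm_num, Real.log_pow]; push_cast; ring
      rw [e4] at e2
      push_cast at e2 ⊢
      unfold kap0
      have e3 : Real.log 3 / (2 * Real.log 2) * W ≤ (h : ℝ) + 1 := by
        rw [div_mul_eq_mul_div, div_le_iff₀ (by positivity)]
        linarith
      have : (0 : ℝ) ≤ s := Nat.cast_nonneg s
      linarith
    -- typical part
    obtain ⟨Q, hQ⟩ : ∃ Q : List Bool → Prop, ∀ v, Q v ↔ Tl s v ∧ PBal s v :=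
      ⟨_, fun _ => Iff.rfl⟩
    have hbad1 := bad_mass hF hg Q
    have hbad2 : ∑ v ∈ words W, (if Q v then 0 else 1 : ℝ) ≤
        W * 2 ^ W / 2 ^ s + (W + 1) * (2 * (2 ^ W * Real.exp (W * (η ^ 2 * (Real.log 3) ^ 2 / 2) -
      η * s * Real.log 4))) := by
      have e1 : ∑ v ∈ words W, (if Q v then 0 else 1 : ℝ) ≤
          ∑ v ∈ words W, ((if Tl s v then 0 else 1 : ℝ) + (if PBal s v then 0 else 1 : ℝ)) := by
        apply sum_le_sum
        intro v _
        by_cases t1 : Tl s v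
        · by_cases t2 : PBal s v
          · rw [if_pos ((hQ v).2 ⟨t1, t2⟩), if_pos t1, if_pos t2]; norm_num
          · rw [if_neg (fun h : Q v => t2 ((hQ v).1 h).2), if_pos t1, if_neg t2]; norm_num
        · rw [if_neg (fun h : Q v => t1 ((hQ v).1 h).1), if_neg t1]
          have : (0 : ℝ) ≤ (if PBal s v then 0 else 1 : ℝ) := by split_ifs <;> norm_num
          linarith
      rw [sum_add_distrib] at e1
      have e2 := bad_Tl s W
      rw [← le_div_iff₀ (by positivity)] at e2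
      have e3 := bad_PBal s W η hη0.le
      linarith
    have hW' : (2 : ℝ) ^ ((1 - η ^ 2 / 2) * W) > 0 := by positivity
    -- one number of odd steps
    have hone : ∀ o ∈ range (W + 1),
        ∑ x ∈ F.filter (fun x => Q (wd 1 W x) ∧ ones (wd 1 W x) = o), g x ≤
          C * (4 * (2 : ℝ) ^ ((1 - δ / 2) * W)) := by
      intro o _
      set Fo := F.filter (fun x => Q (wd 1 W x) ∧ ones (wd 1 W x) = o) with hFo
      have hFo1 : ∀ x ∈ Fo, x ∈ F ∧ Tl s (wd 1 W x) ∧ PBal s (wd 1 W x) ∧ ones (wd 1 W x) = o := by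
        intro x hx
        rw [hFo, mem_filter] at hx
        exact ⟨hx.1, ((hQ _).1 hx.2.1).1, ((hQ _).1 hx.2.1).2, hx.2.2⟩
      have hBalW : ∀ x ∈ Fo, Bal s (wd 1 W x) := by
        intro x hx
        have := (hFo1 x hx).2.2.1 W (by rw [wd_length])
        rwa [List.take_of_length_le (by rw [wd_length])] at this
      obtain ⟨u', F', g', hF', hg', hsum', hB'⟩ := push f1 f2 g3 b1 (by omega)
        (fun x hx => hF x (hFo1 x hx).1) (fun x hx => hg x (hFo1 x hx).1)
        (fun x hx => ⟨(hFo1 x hx).2.1, hBalW x hx, (hFo1 x hx).2.2.2⟩)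
      set M : ℝ := 2 ^ (W - (h - 3 * s)) with hM
      have hM0 : 0 < M := by positivity
      have hMe : M = (2 : ℝ) ^ ((W : ℝ) - h + 3 * s) := by
        rw [hM, ← Real.rpow_natCast]
        congr 1
        rw [Nat.cast_sub (by omega), Nat.cast_sub g3]
        push_cast
        ring
      set B' := F'.filter (fun v => ¬ G (c * ((h + s + 2 : ℕ) : ℝ)) (ε * ((h + s + 2 : ℕ) : ℝ) + C) v)
        with hB'd
      have hBs : B' ⊆ F' := filter_subset _ _
      have hRR := hR (h + s + 2) u' B' g' (fun v hv => hF' v (hBs hv)) (fun v hv => hg' v (hBs hv))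
        (fun v hv => by rw [hB'd, mem_filter] at hv; exact hv.2)
      have hall : Fo.filter (fun x => (T 1)^[W] x ∈ B') = Fo.filter (fun x => (T 1)^[W] x ∈ F') := by
        apply filter_congr
        intro x hx
        refine ⟨fun hxB => hBs hxB, fun hxF' => ?_⟩
        rw [hB'd, mem_filter]
        refine ⟨hxF', fun hG => hbad x (hFo1 x hx).1 ?_⟩
        have hPB := (hFo1 x hx).2.2.1
        have hpre : ∀ t ≤ W, |(ones (wd 1 t x) : ℝ) - t / 2| ≤ s := by
          intro t ht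
          obtain ⟨r, rfl⟩ := Nat.exists_eq_add_of_le ht
          have h7 := Bal_dev (hPB t (by rw [wd_length]; omega))
          rw [wd_take, wd_length] at h7
          exact h7
        intro t ht
        have hs2 : (s : ℝ) ≤ ε / 16 * W :=
          hsε.trans (mul_le_mul_of_nonneg_right hηε (Nat.cast_nonneg W))
        have hCp : 0 < C := hC
        have h2W0 : (0 : ℝ) < 3 * 2 ^ W0 := by positivity
        rcases le_or_gt t W with htW | htW
        · refine (hpre t htW).trans ?_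
          have : ε / 16 * W ≤ ε * W := by
            apply mul_le_mul_of_nonneg_right _ (Nat.cast_nonneg W)
            linarith
          linarith
        · obtain ⟨t', rfl⟩ := Nat.exists_eq_add_of_le htW.le
          have h8 := hpre W le_rfl
          have h9 := hG t' (by
            push_cast at ht
            have e1 : (t' : ℝ) ≤ c * (kap0 * W) := by linarith
            exact e1.trans (mul_le_mul_of_nonneg_left hkapW hc0))
          rw [wd_append, ones_append]
          push_cast at h9 ⊢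
          have h10 : |((ones (wd 1 W x) : ℝ) + ones (wd 1 t' ((T 1)^[W] x))) - (W + t') / 2| ≤
              |(ones (wd 1 W x) : ℝ) - W / 2| + |(ones (wd 1 t' ((T 1)^[W] x)) : ℝ) - t' / 2| := by
            rw [show ((ones (wd 1 W x) : ℝ) + ones (wd 1 t' ((T 1)^[W] x))) - (W + t') / 2 =
              ((ones (wd 1 W x) : ℝ) - W / 2) + ((ones (wd 1 t' ((T 1)^[W] x)) : ℝ) - t' / 2) by ring]
            exact abs_add_le _ _
          have h11 : ε * ((h : ℝ) + s + 2) ≤ ε * (69 / 80 * W + 2) :=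
            mul_le_mul_of_nonneg_left (by linarith) hε.le
          have h12 : 0 ≤ ε * W := by positivity
          linarith
      have hmass : ∑ x ∈ Fo, g x = (∑ v ∈ B', g' v) * M := by
        rw [← hsum', ← hB' F' (Subset.refl _), ← hall, hB' B' hBs]
      rw [hmass]
      calc (∑ v ∈ B', g' v) * M ≤ C * (2 : ℝ) ^ ((1 - δ) * ((h + s + 2 : ℕ) : ℝ)) * M :=
            mul_le_mul_of_nonneg_right hRR hM0.le
        _ = C * (2 : ℝ) ^ ((1 - δ) * ((h + s + 2 : ℕ) : ℝ) + ((W : ℝ) - h + 3 * s)) := by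
            rw [hMe, mul_assoc, ← Real.rpow_add (by norm_num)]
        _ ≤ C * (2 : ℝ) ^ (2 + (1 - δ / 2) * W) := by
            apply mul_le_mul_of_nonneg_left _ hC.le
            apply Real.rpow_le_rpow_of_exponent_le (by norm_num)
            push_cast
            have k1 : δ * (3 / 4 * W) ≤ δ * (h + s + 2) := by
              apply mul_le_mul_of_nonneg_left _ hδ0.le
              have : (0 : ℝ) ≤ s := Nat.cast_nonneg s
              linarith
            have k2 : (4 : ℝ) * s ≤ 1 / 4 * δ * W := by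
              have : η * W ≤ δ / 16 * W := mul_le_mul_of_nonneg_right hηδ (Nat.cast_nonneg W)
              linarith
            nlinarith
        _ = _ := by
            rw [Real.rpow_add (by norm_num)]
            norm_num
    have hsplit : ∑ x ∈ F, g x ≤ ∑ x ∈ F.filter (fun x => ¬ Q (wd 1 W x)), g x +
        ∑ o ∈ range (W + 1), ∑ x ∈ F.filter (fun x => Q (wd 1 W x) ∧ ones (wd 1 W x) = o), g x := by
      have e1 : ∑ x ∈ F.filter (fun x => Q (wd 1 W x)), g x =
          ∑ o ∈ range (W + 1), ∑ x ∈ F.filter (fun x => Q (wd 1 W x) ∧ ones (wd 1 W x) = o), g x := by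
        rw [← sum_fiberwise_of_maps_to (s := F.filter (fun x => Q (wd 1 W x))) (t := range (W + 1))
          (g := fun x => ones (wd 1 W x))]
        · apply sum_congr rfl
          intro o _
          rw [filter_filter]
        · intro x _
          have := ones_le_length (wd 1 W x)
          rw [wd_length] at this
          rw [mem_range]
          omega
      have e2 := sum_filter_add_sum_filter_not F (fun x => Q (wd 1 W x)) g
      rw [← e1]
      linarith
    have hsum2 := sum_le_card_nsmul _ _ _ hone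
    rw [card_range, nsmul_eq_mul] at hsum2
    have h5 : ((W + 1 : ℕ) : ℝ) * (C * (4 * (2 : ℝ) ^ ((1 - δ / 2) * W))) ≤
        C * (2 : ℝ) ^ ((1 - η ^ 2 / 2) * W) := by
      have e1 : ((W + 1 : ℕ) : ℝ) * (C * (4 * (2 : ℝ) ^ ((1 - δ / 2) * W))) =
          C * ((4 * ((W : ℝ) + 1)) * (2 : ℝ) ^ ((1 - δ / 2) * W)) := by push_cast; ring
      rw [e1]
      apply mul_le_mul_of_nonneg_left _ hC.le
      calc (4 * ((W : ℝ) + 1)) * (2 : ℝ) ^ ((1 - δ / 2) * W)
          ≤ (2 : ℝ) ^ (δ / 4 * W) * (2 : ℝ) ^ ((1 - δ / 2) * W) :=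
            mul_le_mul_of_nonneg_right b4 (by positivity)
        _ = (2 : ℝ) ^ (δ / 4 * W + (1 - δ / 2) * W) := by rw [← Real.rpow_add (by norm_num)]
        _ ≤ _ := by
            apply Real.rpow_le_rpow_of_exponent_le (by norm_num)
            have : η ^ 2 / 2 * W ≤ δ / 4 * W := mul_le_mul_of_nonneg_right hδ' (Nat.cast_nonneg W)
            linarith
    have h6 : (0 : ℝ) < 3 * 2 ^ W0 := by positivity
    have h7 : 0 ≤ 3 * (2 : ℝ) ^ W0 * (2 : ℝ) ^ ((1 - η ^ 2 / 2) * W) := by positivity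
    have e8 : (3 * (2 : ℝ) ^ W0 + C + 2) * (2 : ℝ) ^ ((1 - η ^ 2 / 2) * W) =
      3 * (2 : ℝ) ^ W0 * (2 : ℝ) ^ ((1 - η ^ 2 / 2) * W) + C * (2 : ℝ) ^ ((1 - η ^ 2 / 2) * W) +
        2 * (2 : ℝ) ^ ((1 - η ^ 2 / 2) * W) := by ring
    rw [e8]
    linarith

end Pool.Agent.Q158.Col2
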