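import Pool.Agent.Q158.Col2.Step

/-! Popular values in every interval. -/

set_option autoImplicit false

namespace Pool.Agent.Q158.Col2

open Finset
open Pool.Agent.TH930.EBQ

/-- the Collatz map on the integers -/
def C (x : ℤ) : ℤ := if x % 2 = 0 then x / 2 else 3 * x + 1

theorem T_even {x : ℤ} (h : x % 2 = 0) : T 1 x = C x := by
  unfold T C
  rw [if_pos h, if_pos h]

theorem T_odd {x : ℤ} (h : x % 2 = 1) : T 1 x = C (C x) := by
  have e3 : C x = 3 * x + 1 := by unfold C; rw [if_neg (by omega)]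
  rw [e3]
  unfold T C
  rw [if_neg (by omega), if_pos (by omega)]

theorem T_iter (i : ℕ) (x : ℤ) : (T 1)^[i] x = C^[i + ones (wd 1 i x)] x := by
  induction i generalizing x with
  | zero => rfl
  | succ i ih =>
    rw [Function.iterate_succ_apply, ih]
    rcases Int.emod_two_eq_zero_or_one x with h | h
    · have e : ones (wd 1 (i + 1) x) = ones (wd 1 i (T 1 x)) := by
        simp only [wd]
        rw [show decide (x % 2 = 1) = false by simp [h], ones_cons_false]
      rw [e, show i + 1 + ones (wd 1 i (T 1 x)) = (i + ones (wd 1 i (T 1 x))) + 1 by ring,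
        Function.iterate_succ_apply, T_even h]
    · have e : ones (wd 1 (i + 1) x) = ones (wd 1 i (T 1 x)) + 1 := by
        simp only [wd]
        rw [show decide (x % 2 = 1) = true by simp [h], ones_cons_true]
      rw [e, show i + 1 + (ones (wd 1 i (T 1 x)) + 1) = (i + ones (wd 1 i (T 1 x))) + 1 + 1 by ring,
        Function.iterate_succ_apply, Function.iterate_succ_apply, T_odd h]

theorem main1 (ε : ℝ) (hε : 0 < ε) : ∃ δ c K : ℝ, 0 < δ ∧ 0 < c ∧ 0 < K ∧
    ∀ (a : ℤ) (L : ℕ), 1 ≤ L → ∀ A : Finset ℤ, (∀ x ∈ A, a ≤ x ∧ x ≤ a + L) →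
      (L : ℝ) ^ (1 - δ) ≤ A.card → ∃ B ⊆ A, c * A.card * (L : ℝ) ^ (-ε) ≤ B.card ∧
      ∃ t : ℕ, (t : ℝ) ≤ K * Real.log (L + 1) ∧ ∀ x ∈ B, ∀ y ∈ B, C^[t] x = C^[t] y := by
  obtain ⟨δ, c, K, hδ0, hδ1, hc0, hc1, hP⟩ := P_all hε
  set Λ : ℝ := (2 : ℝ) ^ (2 / δ) with hΛ
  have hΛ0 : 0 < Λ := by positivity
  refine ⟨δ / 2, min (c * (2 : ℝ) ^ (-ε)) (1 / (2 * Λ)), 6 * K + 1, by positivity, by positivity,
    by positivity, ?_⟩
  intro a L hL A hA hcard
  have hLr : (1 : ℝ) ≤ L := by exact_mod_cast hL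
  have hL0 : (0 : ℝ) < L := by linarith
  have hLe : (L : ℝ) ^ (-ε) ≤ 1 := Real.rpow_le_one_of_one_le_of_nonpos hLr (by linarith)
  have hlog : 0 ≤ Real.log ((L : ℝ) + 1) := Real.log_nonneg (by linarith)
  have hA0 : (0 : ℝ) ≤ A.card := Nat.cast_nonneg _
  rcases lt_or_ge (L : ℝ) Λ with hlt | hge
  · have hne : A.Nonempty := by
      rw [nonempty_iff_ne_empty]
      rintro rfl
      rw [card_empty, Nat.cast_zero] at hcard
      have : (0 : ℝ) < (L : ℝ) ^ (1 - δ / 2) := by positivity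
      linarith
    obtain ⟨x, hx⟩ := hne
    refine ⟨{x}, by simpa using hx, ?_, 0, by rw [Nat.cast_zero]; positivity, ?_⟩
    · rw [card_singleton, Nat.cast_one]
      have h1 : A ⊆ Icc a (a + L) := fun y hy => mem_Icc.2 (hA y hy)
      have h2 := card_le_card h1
      rw [Int.card_Icc] at h2
      have h3 : (A.card : ℝ) ≤ L + 1 := by
        have : (a + L + 1 - a).toNat = L + 1 := by omega
        rw [this] at h2
        exact_mod_cast h2
      calc min (c * (2 : ℝ) ^ (-ε)) (1 / (2 * Λ)) * A.card * (L : ℝ) ^ (-ε)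
          ≤ 1 / (2 * Λ) * (2 * Λ) * 1 := by
            gcongr
            · exact min_le_right _ _
            · linarith
        _ = 1 := by field_simp
    · intro y hy z hz
      rw [mem_singleton] at hy hz
      rw [hy, hz]
  · set W := Nat.log 2 L + 1 with hW
    have w1 : L ≤ 2 ^ W := (Nat.lt_pow_succ_log_self (by norm_num) L).le
    have w2 : (2 : ℝ) ^ W ≤ 2 * L := by
      have h2 : 2 ^ (Nat.log 2 L) ≤ L := Nat.pow_log_le_self 2 (by omega)
      rw [hW, pow_succ, mul_comm]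
      have : (2 : ℝ) ^ (Nat.log 2 L) ≤ L := by exact_mod_cast h2
      linarith
    have w3 : (W : ℝ) ≤ 3 * Real.log (L + 1) := by
      have h3 : (2 : ℝ) ^ W ≤ ((L : ℝ) + 1) ^ 2 := by nlinarith
      have h4 := Real.log_le_log (by positivity) h3
      rw [Real.log_pow, Real.log_pow] at h4
      have h6 := Real.log_two_gt_d9
      have h7 : 0 ≤ (W : ℝ) := Nat.cast_nonneg _
      have h8 : (W : ℝ) * (2 / 3) ≤ (W : ℝ) * Real.log 2 :=
        mul_le_mul_of_nonneg_left (by linarith) h7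
      push_cast at h4
      linarith
    have hexp : ∀ η : ℝ, 0 ≤ η → (2 : ℝ) ^ (η * W) ≤ (2 : ℝ) ^ η * (L : ℝ) ^ η := by
      intro η hη
      rw [mul_comm, Real.rpow_mul (by norm_num), Real.rpow_natCast,
        ← Real.mul_rpow (by norm_num) (by positivity)]
      exact Real.rpow_le_rpow (by positivity) w2 hη
    have hdens : (2 : ℝ) ^ ((1 - δ) * W) ≤ ∑ _x ∈ A, (1 : ℝ) := by
      rw [sum_const, nsmul_eq_mul, mul_one]
      refine le_trans ((hexp (1 - δ) (by linarith)).trans ?_) hcard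
      have e1 : (L : ℝ) ^ (1 - δ / 2) = (L : ℝ) ^ (δ / 2) * (L : ℝ) ^ (1 - δ) := by
        rw [← Real.rpow_add hL0]
        congr 1
        ring
      rw [e1]
      apply mul_le_mul_of_nonneg_right _ (by positivity)
      calc (2 : ℝ) ^ (1 - δ) ≤ 2 ^ (1 : ℝ) :=
            Real.rpow_le_rpow_of_exponent_le (by norm_num) (by linarith)
        _ = Λ ^ (δ / 2) := by
            rw [hΛ, ← Real.rpow_mul (by norm_num)]
            congr 1
            field_simp
        _ ≤ (L : ℝ) ^ (δ / 2) := Real.rpow_le_rpow hΛ0.le hge (by positivity)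
    obtain ⟨B, hB, τ, hτ, hco, hsum⟩ := hP W a A (fun _ => 1) (fun x hx => by
      have hLW : (L : ℤ) ≤ 2 ^ W := by exact_mod_cast w1
      obtain ⟨h3, h4⟩ := hA x hx
      rw [abs_le]
      constructor <;> linarith) (fun _ _ => ⟨zero_le_one, le_rfl⟩) hdens
    rw [sum_const, sum_const, nsmul_eq_mul, nsmul_eq_mul, mul_one, mul_one] at hsum
    refine ⟨B, hB, ?_, ?_⟩
    · refine le_trans ?_ hsum
      have e2 := hexp ε hε.le
      have e3 : (2 : ℝ) ^ (-ε) * (L : ℝ) ^ (-ε) ≤ (2 : ℝ) ^ (-(ε * W)) := by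
        rw [Real.rpow_neg (by norm_num), Real.rpow_neg hL0.le, Real.rpow_neg (by norm_num),
          ← mul_inv]
        exact inv_anti₀ (by positivity) e2
      calc min (c * (2 : ℝ) ^ (-ε)) (1 / (2 * Λ)) * A.card * (L : ℝ) ^ (-ε)
          ≤ c * (2 : ℝ) ^ (-ε) * A.card * (L : ℝ) ^ (-ε) := by
            gcongr
            exact min_le_left _ _
        _ = c * ((2 : ℝ) ^ (-ε) * (L : ℝ) ^ (-ε)) * A.card := by ring
        _ ≤ c * (2 : ℝ) ^ (-(ε * W)) * A.card := by gcongr
    · rcases B.eq_empty_or_nonempty with hBe | ⟨x0, hx0⟩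
      · exact ⟨0, by rw [Nat.cast_zero]; positivity, by simp [hBe]⟩
      · refine ⟨τ + ones (wd 1 τ x0), ?_, ?_⟩
        · have h5 : ones (wd 1 τ x0) ≤ τ := by
            have := ones_le_length (wd 1 τ x0)
            rwa [wd_length] at this
          have h6 : τ + ones (wd 1 τ x0) ≤ 2 * (K * W) := by omega
          have h7 : ((τ + ones (wd 1 τ x0) : ℕ) : ℝ) ≤ 2 * (K * W) := by exact_mod_cast h6
          have h8 : (K : ℝ) * W ≤ K * (3 * Real.log (L + 1)) :=
            mul_le_mul_of_nonneg_left w3 (Nat.cast_nonneg K)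
          calc ((τ + ones (wd 1 τ x0) : ℕ) : ℝ) ≤ 2 * (K * W) := h7
            _ ≤ 2 * (K * (3 * Real.log (L + 1))) := by linarith
            _ ≤ (6 * K + 1) * Real.log (L + 1) := by linarith
        · intro x hx y hy
          have hx1 := (hco x hx x0 hx0).2
          have hy1 := (hco y hy x0 hx0).2
          have h1 := T_iter τ x
          have h2 := T_iter τ y
          rw [hx1] at h1
          rw [hy1] at h2
          rw [← h1, ← h2]
          exact (hco x hx y hy).1

/-- `x` and `y` reach `1` after the same number of steps, or both do not reach it -/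
def SameSteps (x y : ℤ) : Prop :=
  ∀ k : ℕ, IsLeast {j : ℕ | C^[j] x = 1} k ↔ IsLeast {j : ℕ | C^[j] y = 1} k

theorem same_of {t : ℕ} {x y : ℤ} (h : C^[t] x = C^[t] y)
    (hx : ∀ j ≤ t, C^[j] x ≠ 1) (hy : ∀ j ≤ t, C^[j] y ≠ 1) : SameSteps x y := by
  have h1 : {j : ℕ | C^[j] x = 1} = {j : ℕ | C^[j] y = 1} := by
    ext j
    rw [Set.mem_ofPred_eq, Set.mem_ofPred_eq]
    rcases le_or_gt j t with hj | hj
    · exact ⟨fun e => absurd e (hx j hj), fun e => absurd e (hy j hj)⟩
    · obtain ⟨m, rfl⟩ := Nat.exists_eq_add_of_lt hj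
      rw [show t + m + 1 = (m + 1) + t by ring, Function.iterate_add_apply C (m + 1) t x,
        Function.iterate_add_apply C (m + 1) t y, h]
  intro k
  rw [h1]

theorem main2 (ε : ℝ) (hε : 0 < ε) : ∃ δ c : ℝ, 0 < δ ∧ 0 < c ∧
    ∀ (a : ℤ) (L : ℕ), 1 ≤ L → ∀ A : Finset ℤ, (∀ x ∈ A, a ≤ x ∧ x ≤ a + L) →
      (L : ℝ) ^ (1 - δ) ≤ A.card → ∃ B ⊆ A, c * A.card * (L : ℝ) ^ (-ε) ≤ B.card ∧
      ∀ x ∈ B, ∀ y ∈ B, SameSteps x y := by
  classical
  obtain ⟨δ, c, K, hδ, hc, hK, hmain⟩ := main1 (ε / 2) (by positivity)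
  set D : ℝ := K * (1 + 2 / ε) + 2 with hD
  have hD0 : 0 < D := by positivity
  refine ⟨δ, c / D, hδ, by positivity, ?_⟩
  intro a L hL A hA hcard
  obtain ⟨B, hB, hBc, t, ht, hco⟩ := hmain a L hL A hA hcard
  have hLr : (1 : ℝ) ≤ L := by exact_mod_cast hL
  have hL0 : (0 : ℝ) < L := by linarith
  set ψ : ℤ → ℕ := fun x => if h : ∃ j ≤ t, C^[j] x = 1 then Nat.find h else t + 1 with hψ
  have hmaps : ∀ x ∈ B, ψ x ∈ range (t + 2) := by
    intro x _
    rw [mem_range, hψ]
    simp only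
    split_ifs with h
    · have := (Nat.find_spec h).1
      omega
    · omega
  have hpig : ∃ j ∈ range (t + 2), (B.card : ℝ) / (t + 2) ≤ ((B.filter (fun x => ψ x = j)).card : ℝ) := by
    by_contra hcon
    push Not at hcon
    have e1 : (B.card : ℝ) = ∑ j ∈ range (t + 2), ((B.filter (fun x => ψ x = j)).card : ℝ) := by
      rw [card_eq_sum_card_fiberwise hmaps]
      push_cast
      rfl
    have e2 := sum_lt_sum_of_nonempty (s := range (t + 2)) ⟨0, by simp⟩ hcon
    rw [← e1, sum_const, card_range, nsmul_eq_mul] at e2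
    have e3 : ((t + 2 : ℕ) : ℝ) * ((B.card : ℝ) / (t + 2)) = B.card := by
      push_cast
      field_simp
    rw [e3] at e2
    exact lt_irrefl _ e2
  obtain ⟨j, hj, hjc⟩ := hpig
  refine ⟨B.filter (fun x => ψ x = j), (filter_subset _ _).trans hB, ?_, ?_⟩
  · refine le_trans ?_ hjc
    have h1 : (t : ℝ) + 2 ≤ D * (L : ℝ) ^ (ε / 2) := by
      have k1 : Real.log ((L : ℝ) + 1) ≤ 1 + Real.log L := by
        have : Real.log ((L : ℝ) + 1) ≤ Real.log (2 * L) :=
          Real.log_le_log (by positivity) (by linarith)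
        rw [Real.log_mul (by norm_num) hL0.ne'] at this
        have := Real.log_two_lt_d9
        linarith
      have k2 := Real.log_le_rpow_div hL0.le (show 0 < ε / 2 by positivity)
      have k3 : (1 : ℝ) ≤ (L : ℝ) ^ (ε / 2) := Real.one_le_rpow hLr (by positivity)
      have k4 : (L : ℝ) ^ (ε / 2) / (ε / 2) = 2 / ε * (L : ℝ) ^ (ε / 2) := by
        field_simp
      rw [k4] at k2
      have k5 : Real.log ((L : ℝ) + 1) ≤ (1 + 2 / ε) * (L : ℝ) ^ (ε / 2) := by linarith
      have k6 := mul_le_mul_of_nonneg_left k5 hK.le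
      calc (t : ℝ) + 2 ≤ K * ((1 + 2 / ε) * (L : ℝ) ^ (ε / 2)) + 2 * (L : ℝ) ^ (ε / 2) := by
            linarith
        _ = D * (L : ℝ) ^ (ε / 2) := by rw [hD]; ring
    rw [le_div_iff₀ (by positivity)]
    have e1 : (L : ℝ) ^ (-ε) * (L : ℝ) ^ (ε / 2) = (L : ℝ) ^ (-(ε / 2)) := by
      rw [← Real.rpow_add hL0]
      congr 1
      ring
    calc c / D * A.card * (L : ℝ) ^ (-ε) * (t + 2)
        ≤ c / D * A.card * (L : ℝ) ^ (-ε) * (D * (L : ℝ) ^ (ε / 2)) :=
          mul_le_mul_of_nonneg_left h1 (by positivity)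
      _ = c * A.card * ((L : ℝ) ^ (-ε) * (L : ℝ) ^ (ε / 2)) := by field_simp
      _ = c * A.card * (L : ℝ) ^ (-(ε / 2)) := by rw [e1]
      _ ≤ B.card := hBc
  · intro x hx y hy
    rw [mem_filter] at hx hy
    obtain ⟨hxB, hx⟩ := hx
    obtain ⟨hyB, hy⟩ := hy
    rw [hψ] at hx hy
    simp only at hx hy
    by_cases h1 : ∃ j ≤ t, C^[j] x = 1
    · rw [dif_pos h1] at hx
      by_cases h2 : ∃ j ≤ t, C^[j] y = 1
      · rw [dif_pos h2] at hy
        have key : ∀ (z : ℤ) (h : ∃ j ≤ t, C^[j] z = 1), Nat.find h = j →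
            ∀ k, IsLeast {i : ℕ | C^[i] z = 1} k ↔ k = j := by
          intro z h hz k
          have hl : IsLeast {i : ℕ | C^[i] z = 1} j := by
            constructor
            · rw [← hz]; exact (Nat.find_spec h).2
            · intro i hi
              rcases le_or_gt i t with hit | hit
              · rw [← hz]; exact Nat.find_min' h ⟨hit, hi⟩
              · have := (Nat.find_spec h).1
                omega
          exact ⟨fun hk => hk.unique hl, fun hk => by rw [hk]; exact hl⟩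
        intro k
        rw [key x h1 hx, key y h2 hy]
      · rw [dif_neg h2] at hy
        have := (Nat.find_spec h1).1
        omega
    · rw [dif_neg h1] at hx
      by_cases h2 : ∃ j ≤ t, C^[j] y = 1
      · rw [dif_pos h2] at hy
        have := (Nat.find_spec h2).1
        omega
      · push Not at h1 h2
        exact same_of (hco x hxB y hyB) h1 h2

end Pool.Agent.Q158.Col2
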