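import Pool.Agent.Q158.Col2.LLN

/-! The profile of the trajectories in all intervals. -/

set_option autoImplicit false

namespace Pool.Agent.Q158.Col2

open Finset Filter Topology
open Pool.Agent.TH930.EBQ

/-- the partial sums of the geometric series of ratio `κ₀` -/
noncomputable def cn : ℕ → ℝ
  | 0 => 0
  | n + 1 => 1 + kap0 * cn n

noncomputable def cinf : ℝ := 1 / (1 - kap0)

lemma cinf_pos : 0 < cinf := by
  obtain ⟨h1, h2⟩ := kap0_bounds
  unfold cinf
  have : 0 < 1 - kap0 := by linarith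
  positivity

lemma cinf_eq : 1 + kap0 * cinf = cinf := by
  obtain ⟨h1, h2⟩ := kap0_bounds
  unfold cinf
  have : 1 - kap0 ≠ 0 := by linarith
  field_simp
  ring

lemma cn_eq (n : ℕ) : cinf - cn n = kap0 ^ n * cinf := by
  induction n with
  | zero => simp [cn]
  | succ n ih =>
    have h := cinf_eq
    rw [cn, pow_succ', mul_assoc, ← ih]
    linear_combination -h

lemma cn_nonneg (n : ℕ) : 0 ≤ cn n := by
  obtain ⟨h1, h2⟩ := kap0_bounds
  induction n with
  | zero => simp [cn]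
  | succ n ih =>
    rw [cn]
    have : 0 ≤ kap0 * cn n := mul_nonneg (by linarith) ih
    linarith

theorem R_cn {ε : ℝ} (hε : 0 < ε) (hε1 : ε ≤ 1) (n : ℕ) : R (cn n) ε := by
  induction n with
  | zero => exact R_zero hε
  | succ n ih => exact R_step hε hε1 (cn_nonneg n) ih

theorem G_ext {τ τ' e : ℝ} (h0 : 0 ≤ τ) (h : τ ≤ τ') {x : ℤ} (hG : G τ e x) :
    G τ' (e + (τ' - τ + 1) / 2) x := by
  intro t ht
  rcases le_or_gt (t : ℝ) τ with h1 | h1
  · have := hG t h1
    linarith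
  · have h2 : ⌊τ⌋₊ ≤ t := by
      have := Nat.floor_le h0
      have h3 : (⌊τ⌋₊ : ℝ) ≤ t := by linarith
      exact_mod_cast h3
    obtain ⟨m, rfl⟩ := Nat.exists_eq_add_of_le h2
    have h3 := hG ⌊τ⌋₊ (Nat.floor_le h0)
    obtain ⟨h4, h5⟩ := ones_mono ⌊τ⌋₊ m x
    have h4' : (ones (wd 1 ⌊τ⌋₊ x) : ℝ) ≤ ones (wd 1 (⌊τ⌋₊ + m) x) := by exact_mod_cast h4
    have h5' : (ones (wd 1 (⌊τ⌋₊ + m) x) : ℝ) ≤ ones (wd 1 ⌊τ⌋₊ x) + m := by exact_mod_cast h5
    have h6 := Nat.lt_floor_add_one τ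
    push_cast at ht ⊢
    rw [abs_le] at h3 ⊢
    constructor <;> linarith

theorem R_inf {ε : ℝ} (hε : 0 < ε) (hε1 : ε ≤ 1) : R cinf ε := by
  obtain ⟨hk1, hk2⟩ := kap0_bounds
  obtain ⟨n, hn⟩ := exists_pow_lt_of_lt_one (show 0 < ε / cinf from div_pos hε cinf_pos)
    (show kap0 < 1 by linarith)
  have hn' : cinf - cn n ≤ ε := by
    rw [cn_eq]
    have := mul_le_mul_of_nonneg_right hn.le cinf_pos.le
    rwa [div_mul_cancel₀ _ cinf_pos.ne'] at this
  have hn0 : 0 ≤ cinf - cn n := by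
    rw [cn_eq]
    have := cinf_pos
    have : 0 ≤ kap0 := by linarith
    positivity
  obtain ⟨δ, C, h1, h2, h3, h4⟩ := R_cn (show 0 < ε / 2 by positivity) (by linarith) n
  refine ⟨δ, C + 1, h1, h2, by positivity, ?_⟩
  intro W u F g hF hg hbad
  refine (h4 W u F g hF hg ?_).trans ?_
  · intro x hx hG
    apply hbad x hx
    have h5 := G_ext (mul_nonneg (cn_nonneg n) (Nat.cast_nonneg W))
      (mul_le_mul_of_nonneg_right (show cn n ≤ cinf by linarith) (Nat.cast_nonneg W)) hG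
    intro t ht
    refine (h5 t ht).trans ?_
    have h6 : (cinf - cn n) * W ≤ ε * W := mul_le_mul_of_nonneg_right hn' (Nat.cast_nonneg W)
    linarith
  · apply mul_le_mul_of_nonneg_right _ (by positivity)
    linarith

/-- `√3` -/
noncomputable def q3 : ℝ := √3

lemma q3_sq : q3 ^ 2 = 3 := Real.sq_sqrt (by norm_num)

lemma q3_pos : 0 < q3 := Real.sqrt_pos.2 (by norm_num)

lemma q3_le : q3 ≤ 9 / 5 := by
  unfold q3
  rw [Real.sqrt_le_left (by norm_num)]
  norm_num

lemma q3_rpow (t : ℕ) : q3 ^ t = (3 : ℝ) ^ ((t : ℝ) / 2) := by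
  unfold q3
  rw [Real.sqrt_eq_rpow, ← Real.rpow_natCast, ← Real.rpow_mul (by norm_num)]
  congr 1
  ring

lemma rho_log (t : ℕ) : (2 / q3) ^ t = Real.exp (t / 2 * Real.log (4 / 3)) := by
  have h1 : Real.log (2 / q3) = Real.log (4 / 3) / 2 := by
    have h2 : Real.log ((2 / q3) ^ 2) = Real.log (4 / 3) := by
      congr 1
      rw [div_pow, q3_sq]
      norm_num
    rw [Real.log_pow] at h2
    push_cast at h2
    linarith
  have h3 : 0 < 2 / q3 := div_pos (by norm_num) q3_pos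
  rw [show (t : ℝ) / 2 * Real.log (4 / 3) = t * Real.log (2 / q3) by rw [h1]; ring,
    Real.exp_nat_mul, Real.exp_log h3]

lemma cw_bound {E : ℝ} (x : ℤ) (t : ℕ)
    (hG : ∀ i ≤ t, |(ones (wd 1 i x) : ℝ) - i / 2| ≤ E) :
    (cw (wd 1 t x) : ℝ) ≤ 7 * (3 : ℝ) ^ E * 3 ^ ones (wd 1 t x) * (2 / q3) ^ t := by
  induction t with
  | zero => simp [wd]; positivity
  | succ t ih =>
    have ih := ih (fun i hi => hG i (by omega))
    have hq := q3_pos
    have hq2 := q3_le
    have hρ : 0 < 2 / q3 := div_pos (by norm_num) hq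
    have e1 := wd_append 1 t 1 x
    have h3 : (0 : ℝ) < 7 * (3 : ℝ) ^ E * 3 ^ ones (wd 1 t x) * (2 / q3) ^ t := by positivity
    have hρ1 : 1 ≤ 2 / q3 := by rw [le_div_iff₀ hq]; linarith
    rcases Int.emod_two_eq_zero_or_one ((T 1)^[t] x) with h | h
    · have e2 : wd 1 1 ((T 1)^[t] x) = [false] := by simp [wd, h]
      rw [e2] at e1
      rw [e1, cw_append, ones_append]
      simp only [cw_cons_false, cw_nil, ones_cons_false, ones_nil, mul_zero, add_zero, pow_zero,
        one_mul]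
      rw [pow_succ, ← mul_assoc]
      exact ih.trans (le_mul_of_one_le_right h3.le hρ1)
    · have e2 : wd 1 1 ((T 1)^[t] x) = [true] := by simp [wd, h]
      rw [e2] at e1
      have h4 := hG (t + 1) le_rfl
      rw [e1, ones_append] at h4
      rw [e1, cw_append, ones_append]
      simp only [cw_cons_true, cw_nil, ones_cons_true, ones_nil, mul_zero, add_zero, zero_add,
        pow_zero, mul_one, pow_one, wd_length] at h4 ⊢
      push_cast at h4 ⊢
      have h5 : q3 ^ (t + 1) ≤ (3 : ℝ) ^ E * 3 ^ (ones (wd 1 t x) + 1) := by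
        rw [q3_rpow, ← Real.rpow_natCast 3 (ones (wd 1 t x) + 1), ← Real.rpow_add (by norm_num)]
        apply Real.rpow_le_rpow_of_exponent_le (by norm_num)
        push_cast
        linarith [(abs_le.1 h4).1]
      have h6 : (2 : ℝ) ^ t ≤ 7 * ((3 : ℝ) ^ E * 3 ^ (ones (wd 1 t x) + 1)) * (2 / q3) ^ t *
          (2 / q3 - 1) := by
        calc (2 : ℝ) ^ t ≤ 7 * (2 - q3) * 2 ^ t := by
              have : (1 : ℝ) ≤ 7 * (2 - q3) := by linarith
              have h2 : (0 : ℝ) < 2 ^ t := by positivity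
              nlinarith
          _ = 7 * q3 ^ (t + 1) * (2 / q3) ^ t * (2 / q3 - 1) := by
              rw [div_pow, pow_succ]
              field_simp
          _ ≤ _ := by
              have : 0 ≤ 2 / q3 - 1 := by linarith
              gcongr
      rw [pow_succ (2 / q3)]
      have e7 : (3 : ℝ) ^ (ones (wd 1 t x) + 1) = 3 * 3 ^ ones (wd 1 t x) := by ring
      rw [e7] at h6 ⊢
      calc (3 : ℝ) * cw (wd 1 t x) + 2 ^ t ≤
          3 * (7 * (3 : ℝ) ^ E * 3 ^ ones (wd 1 t x) * (2 / q3) ^ t) +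
            7 * ((3 : ℝ) ^ E * (3 * 3 ^ ones (wd 1 t x))) * (2 / q3) ^ t * (2 / q3 - 1) := by
            linarith
        _ = _ := by ring

lemma T_pos {x : ℤ} (hx : 0 < x) : 0 < T 1 x := by
  unfold T
  split_ifs <;> omega

lemma T_iter_pos {x : ℤ} (hx : 0 < x) (t : ℕ) : 0 < (T 1)^[t] x := by
  induction t generalizing x with
  | zero => exact hx
  | succ t ih => rw [Function.iterate_succ_apply]; exact ih (T_pos hx)

lemma log43 : Real.log (4 / 3) = 2 * Real.log 2 - Real.log 3 := by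
  rw [Real.log_div (by norm_num) (by norm_num), show (4 : ℝ) = 2 ^ 2 by norm_num, Real.log_pow]
  push_cast
  ring

lemma log43_pos : 0 < Real.log (4 / 3) := Real.log_pos (by norm_num)

theorem lower {x : ℤ} (hx : 0 < x) (t : ℕ) :
    Real.log x + ones (wd 1 t x) * Real.log 3 - t * Real.log 2 ≤ Real.log ((T 1)^[t] x : ℤ) := by
  have hxr : (0 : ℝ) < x := by exact_mod_cast hx
  have hyr : (0 : ℝ) < ((T 1)^[t] x : ℤ) := by exact_mod_cast T_iter_pos hx t
  have h1 := iter_eq odd1 t x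
  have h2 : (2 : ℝ) ^ t * ((T 1)^[t] x : ℤ) = 3 ^ ones (wd 1 t x) * x + cw (wd 1 t x) := by
    have := congrArg (Int.cast : ℤ → ℝ) h1
    push_cast at this
    rw [this]
    ring
  have h3 : (3 : ℝ) ^ ones (wd 1 t x) * x ≤ (2 : ℝ) ^ t * ((T 1)^[t] x : ℤ) := by
    rw [h2]
    have : (0 : ℝ) ≤ cw (wd 1 t x) := Nat.cast_nonneg _
    linarith
  have h4 := Real.log_le_log (by positivity) h3
  rw [Real.log_mul (by positivity) hxr.ne', Real.log_mul (by positivity) hyr.ne', Real.log_pow,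
    Real.log_pow] at h4
  linarith

theorem profile {E : ℝ} (hE : 0 ≤ E) {x : ℤ} (hx : 0 < x) {t : ℕ}
    (hG : ∀ i ≤ t, |(ones (wd 1 i x) : ℝ) - i / 2| ≤ E)
    (hρ : Real.exp (t / 2 * Real.log (4 / 3)) ≤ x) :
    |Real.log ((T 1)^[t] x : ℤ) - (Real.log x - t / 2 * Real.log (4 / 3))| ≤
      2 * Real.log 3 * E + Real.log 8 := by
  have hxr : (0 : ℝ) < x := by exact_mod_cast hx
  have hyr : (0 : ℝ) < ((T 1)^[t] x : ℤ) := by exact_mod_cast T_iter_pos hx t
  have hl3 : 0 < Real.log 3 := Real.log_pos (by norm_num)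
  have hl8 : 0 < Real.log 8 := Real.log_pos (by norm_num)
  have h1 := iter_eq odd1 t x
  have h2 : (2 : ℝ) ^ t * ((T 1)^[t] x : ℤ) = 3 ^ ones (wd 1 t x) * x + cw (wd 1 t x) := by
    have := congrArg (Int.cast : ℤ → ℝ) h1
    push_cast at this
    rw [this]
    ring
  have hl := lower hx t
  have hb := abs_le.1 (hG t le_rfl)
  have h3 := cw_bound x t hG
  rw [rho_log] at h3
  have h3E : (1 : ℝ) ≤ (3 : ℝ) ^ E := Real.one_le_rpow (by norm_num) hE
  have h4 : (2 : ℝ) ^ t * ((T 1)^[t] x : ℤ) ≤ 8 * (3 : ℝ) ^ E * (3 ^ ones (wd 1 t x) * x) := by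
    rw [h2]
    have h5 : 7 * (3 : ℝ) ^ E * 3 ^ ones (wd 1 t x) * Real.exp (t / 2 * Real.log (4 / 3)) ≤
        7 * (3 : ℝ) ^ E * 3 ^ ones (wd 1 t x) * x :=
      mul_le_mul_of_nonneg_left hρ (by positivity)
    have h6 : 3 ^ ones (wd 1 t x) * (x : ℝ) ≤ (3 : ℝ) ^ E * (3 ^ ones (wd 1 t x) * x) :=
      le_mul_of_one_le_left (by positivity) h3E
    linarith
  have h5 := Real.log_le_log (by positivity) h4
  rw [Real.log_mul (by positivity) hyr.ne', Real.log_mul (by positivity) (by positivity),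
    Real.log_mul (by positivity) (by positivity), Real.log_mul (by positivity) hxr.ne',
    Real.log_pow, Real.log_pow, Real.log_rpow (by norm_num)] at h5
  have b1 := mul_le_mul_of_nonneg_right hb.1 hl3.le
  have b2 := mul_le_mul_of_nonneg_right hb.2 hl3.le
  have hEl : 0 ≤ E * Real.log 3 := mul_nonneg hE hl3.le
  rw [log43, abs_le]
  constructor <;> nlinarith

/-- The map on the positive integers. -/
def Tn (n : ℕ) : ℕ := if n % 2 = 0 then n / 2 else (3 * n + 1) / 2

theorem Tn_cast (t n : ℕ) : (T 1)^[t] (n : ℤ) = ((Tn^[t] n : ℕ) : ℤ) := by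
  induction t generalizing n with
  | zero => rfl
  | succ t ih =>
    rw [Function.iterate_succ_apply, Function.iterate_succ_apply, ← ih]
    congr 1
    unfold T Tn
    rcases Nat.mod_two_eq_zero_or_one n with h | h
    · rw [if_pos (by omega), if_pos h]; omega
    · rw [if_neg (by omega), if_neg (by omega)]; omega

theorem main3 (ε : ℝ) (hε : 0 < ε) : ∃ δ A : ℝ, 0 < δ ∧ 0 < A ∧
    ∀ N L : ℕ, 1 ≤ L → L ≤ N →
      ({n : ℕ | N ≤ n ∧ n ≤ N + L ∧ ¬ ∀ t : ℕ, (t : ℝ) ≤ 2 / Real.log (4 / 3) * Real.log L →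
        |Real.log (Tn^[t] n : ℕ) - (Real.log n - t / 2 * Real.log (4 / 3))| ≤
          ε * Real.log L + A}.ncard : ℝ) ≤ A * (L : ℝ) ^ (1 - δ) := by
  classical
  have hl2 : 0 < Real.log 2 := Real.log_pos (by norm_num)
  have hl3 : 0 < Real.log 3 := Real.log_pos (by norm_num)
  have hl8 : 0 < Real.log 8 := Real.log_pos (by norm_num)
  have hl32 : Real.log 3 ≤ 8 / 5 * Real.log 2 := by
    have h : Real.log ((3 : ℝ) ^ 5) ≤ Real.log ((2 : ℝ) ^ 8) :=
      Real.log_le_log (by positivity) (by norm_num)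
    rw [Real.log_pow, Real.log_pow] at h
    push_cast at h
    linarith
  set ε₁ : ℝ := min 1 (ε / 4) with hε₁
  have hε0 : 0 < ε₁ := lt_min one_pos (by positivity)
  have hε11 : ε₁ ≤ 1 := min_le_left _ _
  have hε14 : ε₁ ≤ ε / 4 := min_le_right _ _
  obtain ⟨δ, C, hδ0, hδ1, hC, hR⟩ := R_inf hε0 hε11
  refine ⟨δ, 2 * Real.log 3 * (1 + C) + Real.log 8 + 2 * C, hδ0, by positivity, ?_⟩
  intro N L hL hLN
  have hLr : (1 : ℝ) ≤ L := by exact_mod_cast hL
  have hL0 : (0 : ℝ) < L := by linarith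
  have hlogL : 0 ≤ Real.log L := Real.log_nonneg hLr
  set W := Nat.log 2 L + 1 with hW
  have w1 : L ≤ 2 ^ W := (Nat.lt_pow_succ_log_self (by norm_num) L).le
  have w1r : (L : ℝ) ≤ 2 ^ W := by exact_mod_cast w1
  have w2 : (2 : ℝ) ^ W ≤ 2 * L := by
    have h2 : 2 ^ (Nat.log 2 L) ≤ L := Nat.pow_log_le_self 2 (by omega)
    rw [hW, pow_succ, mul_comm]
    have : (2 : ℝ) ^ (Nat.log 2 L) ≤ L := by exact_mod_cast h2
    linarith
  have w3 : Real.log L ≤ W * Real.log 2 := by
    have := Real.log_le_log hL0 w1r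
    rwa [Real.log_pow] at this
  have w4 : W * Real.log 2 ≤ Real.log L + Real.log 2 := by
    have := Real.log_le_log (by positivity) w2
    rw [Real.log_pow, Real.log_mul (by norm_num) hL0.ne'] at this
    linarith
  set S : Set ℕ := {n : ℕ | N ≤ n ∧ n ≤ N + L ∧ ¬ ∀ t : ℕ,
    (t : ℝ) ≤ 2 / Real.log (4 / 3) * Real.log L →
        |Real.log (Tn^[t] n : ℕ) - (Real.log n - t / 2 * Real.log (4 / 3))| ≤
          ε * Real.log L + (2 * Real.log 3 * (1 + C) + Real.log 8 + 2 * C)} with hS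
  have hSf : S.Finite := (Set.finite_Icc N (N + L)).subset (fun n hn => ⟨hn.1, hn.2.1⟩)
  set F : Finset ℤ := hSf.toFinset.image (fun n : ℕ => (n : ℤ)) with hF
  have hcard : (S.ncard : ℝ) = ∑ x ∈ F, (1 : ℝ) := by
    rw [sum_const, nsmul_eq_mul, mul_one, hF, card_image_of_injective _ Nat.cast_injective,
      Set.ncard_eq_toFinset_card _ hSf]
  rw [hcard]
  have hFm : ∀ x ∈ F, ∃ n : ℕ, n ∈ S ∧ x = n := by
    intro x hx
    rw [hF, mem_image] at hx
    obtain ⟨n, hn, rfl⟩ := hx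
    exact ⟨n, hSf.mem_toFinset.1 hn, rfl⟩
  have h1 := hR W N F (fun _ => 1) ?_ (fun _ _ => ⟨zero_le_one, le_rfl⟩) ?_
  · refine h1.trans ?_
    have e1 : (2 : ℝ) ^ ((1 - δ) * W) ≤ 2 * (L : ℝ) ^ (1 - δ) := by
      have h2 : (2 : ℝ) ^ ((1 - δ) * W) ≤ (2 : ℝ) ^ (1 - δ) * (L : ℝ) ^ (1 - δ) := by
        rw [mul_comm, Real.rpow_mul (by norm_num), Real.rpow_natCast,
          ← Real.mul_rpow (by norm_num) (by positivity)]
        exact Real.rpow_le_rpow (by positivity) w2 (by linarith)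
      refine h2.trans ?_
      apply mul_le_mul_of_nonneg_right _ (by positivity)
      calc (2 : ℝ) ^ (1 - δ) ≤ 2 ^ (1 : ℝ) :=
            Real.rpow_le_rpow_of_exponent_le (by norm_num) (by linarith)
        _ = 2 := by norm_num
    have h3 : (0 : ℝ) < (L : ℝ) ^ (1 - δ) := by positivity
    calc C * (2 : ℝ) ^ ((1 - δ) * W) ≤ C * (2 * (L : ℝ) ^ (1 - δ)) :=
          mul_le_mul_of_nonneg_left e1 hC.le
      _ = (2 * C) * (L : ℝ) ^ (1 - δ) := by ring
      _ ≤ _ := by
          apply mul_le_mul_of_nonneg_right _ h3.le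
          have : 0 ≤ 2 * Real.log 3 * (1 + C) := by positivity
          linarith
  · intro x hx
    obtain ⟨n, hn, rfl⟩ := hFm x hx
    obtain ⟨h3, h4, -⟩ := hn
    have hLW : (L : ℤ) ≤ 2 ^ W := by exact_mod_cast w1
    rw [abs_le]
    constructor <;> linarith [(by exact_mod_cast h3 : (N : ℤ) ≤ n),
      (by exact_mod_cast h4 : (n : ℤ) ≤ N + L)]
  · intro x hx hG
    obtain ⟨n, hn, rfl⟩ := hFm x hx
    obtain ⟨h3, h4, h5⟩ := hn
    apply h5
    intro t ht
    have hn0 : 0 < n := by omega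
    have hnr : (0 : ℝ) < n := by exact_mod_cast hn0
    have hcW : 2 / Real.log (4 / 3) * Real.log L ≤ cinf * W := by
      have e1 : cinf = 2 * Real.log 2 / Real.log (4 / 3) := by
        have h6 := log43_pos
        have e2 : 1 - kap0 = Real.log (4 / 3) / (2 * Real.log 2) := by
          rw [log43]
          unfold kap0
          field_simp
        unfold cinf
        rw [e2]
        field_simp
      rw [e1]
      calc 2 / Real.log (4 / 3) * Real.log L ≤ 2 / Real.log (4 / 3) * (W * Real.log 2) :=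
            mul_le_mul_of_nonneg_left w3 (by have := log43_pos; positivity)
        _ = _ := by ring
    have hρ : Real.exp (t / 2 * Real.log (4 / 3)) ≤ ((n : ℤ) : ℝ) := by
      have h6 : (t : ℝ) / 2 * Real.log (4 / 3) ≤ Real.log L := by
        have h7 := mul_le_mul_of_nonneg_right ht log43_pos.le
        have h8 : 2 / Real.log (4 / 3) * Real.log L * Real.log (4 / 3) = 2 * Real.log L := by
          have := log43_pos.ne'
          field_simp
        linarith
      have h7 := Real.exp_le_exp.2 h6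
      rw [Real.exp_log hL0] at h7
      refine h7.trans ?_
      exact_mod_cast hLN.trans h3
    have h6 := profile (E := ε₁ * W + C) (by positivity) (by exact_mod_cast hn0 : (0 : ℤ) < n)
      (fun i hi => hG i (by
        have : (i : ℝ) ≤ t := by exact_mod_cast hi
        linarith)) hρ
    rw [Tn_cast] at h6
    refine (by exact_mod_cast h6 : |Real.log (Tn^[t] n : ℕ) -
      (Real.log n - t / 2 * Real.log (4 / 3))| ≤ 2 * Real.log 3 * (ε₁ * W + C) + Real.log 8).trans ?_
    have h7 : 2 * Real.log 3 * (ε₁ * W) ≤ ε * Real.log L + 2 * Real.log 3 := by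
      have k1 : Real.log 3 * W ≤ 8 / 5 * (Real.log L + Real.log 2) := by
        have : Real.log 3 * W ≤ 8 / 5 * Real.log 2 * W :=
          mul_le_mul_of_nonneg_right hl32 (Nat.cast_nonneg W)
        linarith
      have k2 : 2 * ε₁ * (Real.log 3 * W) ≤ 2 * ε₁ * (8 / 5 * Real.log L) + 2 * Real.log 3 := by
        have k3 : Real.log 3 * W ≤ 8 / 5 * Real.log L + Real.log 3 := by
          have k4 : (0 : ℝ) ≤ (W : ℝ) - 1 := by
            have : 1 ≤ W := by omega
            have : (1 : ℝ) ≤ W := by exact_mod_cast this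
            linarith
          have k5 := mul_le_mul_of_nonneg_right hl32 k4
          linarith
        have := mul_le_mul_of_nonneg_left k3 (by positivity : 0 ≤ 2 * ε₁)
        have k4 : 2 * ε₁ * Real.log 3 ≤ 2 * Real.log 3 := by nlinarith
        linarith
      nlinarith
    linarith

theorem descent (ε : ℝ) (hε : 0 < ε) : ∃ δ A : ℝ, 0 < δ ∧ 0 < A ∧
    ∀ N L : ℕ, 1 ≤ L → L ≤ N →
      ({n : ℕ | N ≤ n ∧ n ≤ N + L ∧ ∀ t : ℕ, (t : ℝ) ≤ 2 / Real.log (4 / 3) * Real.log L →
        A * N * (L : ℝ) ^ (ε - 1) < (Tn^[t] n : ℕ)}.ncard : ℝ) ≤ A * (L : ℝ) ^ (1 - δ) := by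
  obtain ⟨δ, A, hδ, hA, h⟩ := main3 ε hε
  refine ⟨δ, 4 * Real.exp A, hδ, by positivity, ?_⟩
  intro N L hL hLN
  have hLr : (1 : ℝ) ≤ L := by exact_mod_cast hL
  have hL0 : (0 : ℝ) < L := by linarith
  have hlogL : 0 ≤ Real.log L := Real.log_nonneg hLr
  have hA1 : A ≤ 4 * Real.exp A := by
    have := Real.add_one_le_exp A
    linarith
  refine le_trans ?_ ((h N L hL hLN).trans (mul_le_mul_of_nonneg_right hA1 (by positivity)))
  have hfin : {n : ℕ | N ≤ n ∧ n ≤ N + L ∧ ¬ ∀ t : ℕ,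
    (t : ℝ) ≤ 2 / Real.log (4 / 3) * Real.log L →
        |Real.log (Tn^[t] n : ℕ) - (Real.log n - t / 2 * Real.log (4 / 3))| ≤
          ε * Real.log L + A}.Finite :=
    (Set.finite_Icc N (N + L)).subset (fun n hn => ⟨hn.1, hn.2.1⟩)
  have hsub : {n : ℕ | N ≤ n ∧ n ≤ N + L ∧ ∀ t : ℕ, (t : ℝ) ≤ 2 / Real.log (4 / 3) * Real.log L →
        4 * Real.exp A * N * (L : ℝ) ^ (ε - 1) < (Tn^[t] n : ℕ)} ⊆
      {n : ℕ | N ≤ n ∧ n ≤ N + L ∧ ¬ ∀ t : ℕ,
    (t : ℝ) ≤ 2 / Real.log (4 / 3) * Real.log L →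
        |Real.log (Tn^[t] n : ℕ) - (Real.log n - t / 2 * Real.log (4 / 3))| ≤
          ε * Real.log L + A} := by
    rintro n ⟨h1, h2, h3⟩
    refine ⟨h1, h2, fun h4 => ?_⟩
    set t := ⌊2 / Real.log (4 / 3) * Real.log L⌋₊ with ht
    have hc0 : 0 ≤ 2 / Real.log (4 / 3) * Real.log L := by
      have := log43_pos
      positivity
    have ht1 : (t : ℝ) ≤ 2 / Real.log (4 / 3) * Real.log L := Nat.floor_le hc0
    have ht2 : 2 / Real.log (4 / 3) * Real.log L < t + 1 := Nat.lt_floor_add_one _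
    have h5 := h3 t ht1
    have h6 := (abs_le.1 (h4 t ht1)).2
    have hn0 : (0 : ℝ) < n := by exact_mod_cast (show 0 < n by omega)
    have hN0 : (0 : ℝ) < N := by exact_mod_cast (show 0 < N by omega)
    have hn2 : (n : ℝ) ≤ 2 * N := by exact_mod_cast (show n ≤ 2 * N by omega)
    have h7 : Real.log n ≤ Real.log 2 + Real.log N := by
      rw [← Real.log_mul (by norm_num) hN0.ne']
      exact Real.log_le_log hn0 hn2
    have h8 := Real.log_lt_log (by positivity) h5
    rw [Real.log_mul (by positivity) (by positivity), Real.log_mul (by positivity) hN0.ne',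
      Real.log_mul (by norm_num) (by positivity), Real.log_exp, Real.log_rpow hL0] at h8
    have h9 : Real.log L < (t : ℝ) / 2 * Real.log (4 / 3) + Real.log (4 / 3) / 2 := by
      have h10 := mul_lt_mul_of_pos_right ht2 log43_pos
      have h11 : 2 / Real.log (4 / 3) * Real.log L * Real.log (4 / 3) = 2 * Real.log L := by
        have := log43_pos.ne'
        field_simp
      linarith
    have h12 : Real.log (4 / 3) ≤ Real.log 2 := Real.log_le_log (by norm_num) (by norm_num)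
    have h13 : Real.log 4 = 2 * Real.log 2 := by
      rw [show (4 : ℝ) = 2 ^ 2 by norm_num, Real.log_pow]; push_cast; ring
    have hl2 : 0 < Real.log 2 := Real.log_pos (by norm_num)
    nlinarith
  exact_mod_cast Set.ncard_le_ncard hsub hfin

lemma T_neg {x : ℤ} (hx : x < 0) : T 1 x < 0 := by
  unfold T
  split_ifs <;> omega

lemma T_iter_neg {x : ℤ} (hx : x < 0) (t : ℕ) : (T 1)^[t] x < 0 := by
  induction t generalizing x with
  | zero => exact hx
  | succ t ih => rw [Function.iterate_succ_apply]; exact ih (T_neg hx)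

/-- no descent by more than the factor `L` below a power of `2` -/
theorem sharp1 {L M t n : ℕ} (ht : t ≤ M) (h1 : 2 ^ M ≤ n + L) (h2 : n < 2 ^ M) :
    n ≤ L * Tn^[t] n := by
  obtain ⟨y, hy⟩ := Nat.exists_eq_add_of_lt h2
  set z : ℤ := -((y : ℤ) + 1) with hz
  have hz0 : z < 0 := by omega
  have hnz : (n : ℤ) - z = 2 ^ M := by
    rw [hz]
    have : ((2 ^ M : ℕ) : ℤ) = ((n + y + 1 : ℕ) : ℤ) := by rw [hy]
    push_cast at this
    linarith
  have hw : wd 1 t (n : ℤ) = wd 1 t z := wd_congr odd1 (by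
    rw [hnz]; exact pow_dvd_pow 2 ht)
  have i1 := iter_eq odd1 t (n : ℤ)
  have i2 := iter_eq odd1 t z
  rw [hw] at i1
  have hneg := T_iter_neg hz0 t
  set o := ones (wd 1 t z)
  have hp : (0 : ℤ) < 2 ^ t := by positivity
  have hc0 : (0 : ℤ) ≤ cw (wd 1 t z) := Int.natCast_nonneg _
  have h3 : (2 : ℤ) ^ t ≤ 3 ^ o * (y + 1) := by
    have h4 : (2 : ℤ) ^ t * (T 1)^[t] z ≤ 2 ^ t * (-1) := mul_le_mul_of_nonneg_left (by omega) hp.le
    rw [i2, hz] at h4
    linarith
  have hyL : (y : ℤ) + 1 ≤ L := by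
    have : y + 1 ≤ L := by omega
    exact_mod_cast this
  have h5 : (2 : ℤ) ^ t * n ≤ 2 ^ t * (L * (T 1)^[t] (n : ℤ)) := by
    have h6 : (2 : ℤ) ^ t * n ≤ 3 ^ o * (y + 1) * n :=
      mul_le_mul_of_nonneg_right h3 (Int.natCast_nonneg n)
    have h7 : (3 : ℤ) ^ o * (y + 1) * n ≤ 3 ^ o * L * n := by
      apply mul_le_mul_of_nonneg_right _ (Int.natCast_nonneg n)
      exact mul_le_mul_of_nonneg_left hyL (by positivity)
    have h8 : (3 : ℤ) ^ o * L * n ≤ L * (2 ^ t * (T 1)^[t] (n : ℤ)) := by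
      rw [i1]
      have : (0 : ℤ) ≤ L * (1 * cw (wd 1 t z)) := by positivity
      linarith
    linarith
  have h9 := le_of_mul_le_mul_left h5 hp
  rw [Tn_cast] at h9
  exact_mod_cast h9

theorem sharp2 (η A : ℝ) (hη : 0 < η) : ∃ L₀ : ℕ, ∀ L ≥ L₀, ∀ M : ℕ,
    (2 / Real.log (4 / 3) + η) * Real.log L ≤ M → ∀ n : ℕ, 2 ^ M ≤ n + L → n < 2 ^ M →
    ∃ t : ℕ, (t : ℝ) ≤ (2 / Real.log (4 / 3) + η) * Real.log L ∧
      η * Real.log (4 / 3) / 4 * Real.log L + A <
        |Real.log (Tn^[t] n : ℕ) - (Real.log n - t / 2 * Real.log (4 / 3))| := by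
  have h43 := log43_pos
  have htend : Filter.Tendsto (fun L : ℕ => η * Real.log (4 / 3) / 4 * Real.log L)
      Filter.atTop Filter.atTop :=
    Filter.Tendsto.const_mul_atTop (by positivity)
      (Real.tendsto_log_atTop.comp tendsto_natCast_atTop_atTop)
  obtain ⟨L₀, hL₀⟩ := Filter.eventually_atTop.1
    ((htend.eventually_gt_atTop (A + Real.log (4 / 3) / 2)).and (Filter.eventually_ge_atTop 2))
  refine ⟨L₀, fun L hL M hM n h1 h2 => ?_⟩
  obtain ⟨h3, h4⟩ := hL₀ L hL
  have hL2 : (2 : ℝ) ≤ L := by exact_mod_cast h4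
  have hLr : (1 : ℝ) ≤ L := by linarith
  have hL0 : (0 : ℝ) < L := by linarith
  have hlogL : 0 ≤ Real.log L := Real.log_nonneg hLr
  have hc0 : 0 ≤ (2 / Real.log (4 / 3) + η) * Real.log L := by positivity
  set t := ⌊(2 / Real.log (4 / 3) + η) * Real.log L⌋₊ with ht
  have ht1 : (t : ℝ) ≤ (2 / Real.log (4 / 3) + η) * Real.log L := Nat.floor_le hc0
  have ht2 : (2 / Real.log (4 / 3) + η) * Real.log L < t + 1 := Nat.lt_floor_add_one _
  refine ⟨t, ht1, ?_⟩
  have htM : t ≤ M := by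
    have : (t : ℝ) ≤ M := ht1.trans hM
    exact_mod_cast this
  have h5 := sharp1 htM h1 h2
  rcases Nat.eq_zero_or_pos n with hn | hn
  · exfalso
    subst hn
    -- then `2 ^ M ≤ L`
    have h6 : (2 : ℝ) ^ M ≤ L := by exact_mod_cast (by simpa using h1 : 2 ^ M ≤ L)
    have h7 := Real.log_le_log (by positivity) h6
    rw [Real.log_pow] at h7
    have h8 : Real.log (4 / 3) ≤ Real.log 2 := Real.log_le_log (by norm_num) (by norm_num)
    have h9 : (2 / Real.log (4 / 3) + η) * Real.log L * Real.log 2 ≤ M * Real.log 2 :=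
      mul_le_mul_of_nonneg_right hM (h43.le.trans h8)
    have h10 : 2 * Real.log L ≤ 2 / Real.log (4 / 3) * Real.log L * Real.log 2 := by
      calc 2 * Real.log L = 2 / Real.log (4 / 3) * Real.log L * Real.log (4 / 3) := by
            field_simp
        _ ≤ _ := mul_le_mul_of_nonneg_left h8 (by positivity)
    have h11 : 0 ≤ η * Real.log L * Real.log 2 := by
      have : 0 < Real.log 2 := h43.trans_le h8
      positivity
    have h12 : Real.log L ≤ 0 := by linarith
    have h13 : 0 < Real.log L := Real.log_pos (by linarith)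
    linarith
  · have hnr : (0 : ℝ) < n := by exact_mod_cast hn
    have hTr : (0 : ℝ) < (Tn^[t] n : ℕ) := by
      have : 0 < Tn^[t] n := by
        rcases Nat.eq_zero_or_pos (Tn^[t] n) with h6 | h6
        · rw [h6, mul_zero] at h5; omega
        · exact h6
      exact_mod_cast this
    have h6 : (n : ℝ) ≤ L * (Tn^[t] n : ℕ) := by exact_mod_cast h5
    have h7 := Real.log_le_log hnr h6
    rw [Real.log_mul hL0.ne' hTr.ne'] at h7
    refine lt_of_lt_of_le ?_ (le_abs_self _)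
    have h8 := mul_lt_mul_of_pos_right ht2 h43
    have h9 : (2 / Real.log (4 / 3) + η) * Real.log L * Real.log (4 / 3) =
        2 * Real.log L + η * Real.log (4 / 3) * Real.log L := by
      field_simp
    linarith

end Pool.Agent.Q158.Col2
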