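import Pool.Agent.Q158.Col2.Stat

/-! The image of a weight on a window under `T^W`. -/

set_option autoImplicit false

namespace Pool.Agent.Q158.Col2

open Finset
open Pool.Agent.TH930.EBQ

lemma odd1 : Odd (1 : ℤ) := odd_one

lemma class_card {W : ℕ} {u : ℤ} {F : Finset ℤ} (hF : ∀ x ∈ F, |x - u| ≤ 2 ^ W)
    (v : List Bool) : (F.filter (fun x => wd 1 W x = v)).card ≤ 3 := by
  have hp : (0 : ℤ) < 2 ^ W := by positivity
  have h1 : (F.filter (fun x => wd 1 W x = v)).card ≤ ({0, 1, 2} : Finset ℤ).card := by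
    apply card_le_card_of_injOn (fun x => (x - (u - 2 ^ W)) / 2 ^ W)
    · intro x hx
      rw [coe_filter, Set.mem_ofPred_eq] at hx
      have h := abs_le.1 (hF x hx.1)
      have h2 : 0 ≤ (x - (u - 2 ^ W)) / 2 ^ W := Int.ediv_nonneg (by linarith [h.1]) hp.le
      have h3 : (x - (u - 2 ^ W)) / 2 ^ W < 3 := by
        rw [Int.ediv_lt_iff_lt_mul hp]
        linarith [h.2]
      simp only [coe_insert, coe_singleton, Set.mem_insert_iff, Set.mem_singleton_iff]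
      omega
    · intro x hx y hy hxy
      rw [coe_filter, Set.mem_ofPred_eq] at hx hy
      have h1 := wd_inj odd1 (hx.2.trans hy.2.symm)
      have hxx := Int.mul_ediv_add_emod (x - (u - 2 ^ W)) (2 ^ W)
      have hyy := Int.mul_ediv_add_emod (y - (u - 2 ^ W)) (2 ^ W)
      simp only at hxy
      rw [← hxy] at hyy
      have a1 := Int.emod_nonneg (x - (u - 2 ^ W)) hp.ne'
      have a2 := Int.emod_nonneg (y - (u - 2 ^ W)) hp.ne'
      have b1 := Int.emod_lt_of_pos (x - (u - 2 ^ W)) hp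
      have b2 := Int.emod_lt_of_pos (y - (u - 2 ^ W)) hp
      have h2 : x - y = 0 := by
        apply Int.eq_zero_of_abs_lt_dvd h1
        rw [abs_lt]
        constructor <;> linarith
      omega
  exact h1.trans (by simp)

open Classical in
lemma bad_mass {W : ℕ} {u : ℤ} {F : Finset ℤ} (hF : ∀ x ∈ F, |x - u| ≤ 2 ^ W) {g : ℤ → ℝ}
    (hg : ∀ x ∈ F, 0 ≤ g x ∧ g x ≤ 1) (Q : List Bool → Prop) :
    ∑ x ∈ F.filter (fun x => ¬ Q (wd 1 W x)), g x ≤
      3 * ∑ v ∈ words W, (if Q v then 0 else 1 : ℝ) := by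
  have h1 : ∑ x ∈ F.filter (fun x => ¬ Q (wd 1 W x)), g x ≤
      ∑ x ∈ F, (if Q (wd 1 W x) then 0 else 1 : ℝ) := by
    rw [sum_filter]
    apply sum_le_sum
    intro x hx
    by_cases hQ : Q (wd 1 W x)
    · rw [if_neg (not_not.2 hQ), if_pos hQ]
    · rw [if_pos hQ, if_neg hQ]
      exact (hg x hx).2
  refine h1.trans ?_
  rw [← sum_fiberwise_of_maps_to (s := F) (t := words W) (g := fun x => wd 1 W x)
    (fun x _ => wd_mem 1 W x), mul_sum]
  apply sum_le_sum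
  intro v _
  have h2 : ∑ x ∈ F.filter (fun x => wd 1 W x = v), (if Q (wd 1 W x) then 0 else 1 : ℝ) =
      (F.filter (fun x => wd 1 W x = v)).card * (if Q v then 0 else 1 : ℝ) := by
    rw [← nsmul_eq_mul, ← sum_const]
    apply sum_congr rfl
    intro x hx
    rw [(mem_filter.1 hx).2]
  rw [h2]
  have h3 : (0 : ℝ) ≤ (if Q v then 0 else 1 : ℝ) := by split_ifs <;> norm_num
  exact mul_le_mul_of_nonneg_right (by exact_mod_cast class_card hF v) h3

section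
variable {W s h : ℕ} (h1 : 4 ^ h ≤ 3 ^ W) (h2 : 3 ^ W < 4 ^ (h + 1)) (h3 : 3 * s ≤ h)
  (h4 : W < 2 ^ s) (h5 : h ≤ W)
include h1 h2 h3 h4 h5

omit h2 h3 h4 h5 in
lemma pow_o_ge {o : ℕ} (hb : 3 ^ W ≤ 9 ^ o * 4 ^ s) : 2 ^ h ≤ 3 ^ o * 2 ^ s := by
  have : (2 ^ h) ^ 2 ≤ (3 ^ o * 2 ^ s) ^ 2 := by
    rw [mul_pow, ← pow_mul, ← pow_mul, ← pow_mul, mul_comm h, mul_comm o, mul_comm s, pow_mul,
      pow_mul, pow_mul]
    norm_num
    omega
  exact (Nat.pow_le_pow_iff_left (by norm_num)).1 this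

omit h1 h3 h4 h5 in
lemma pow_o_le {o : ℕ} (hb : 9 ^ o ≤ 3 ^ W * 4 ^ s) : 3 ^ o ≤ 2 ^ (h + 1 + s) := by
  have : (3 ^ o) ^ 2 ≤ (2 ^ (h + 1 + s)) ^ 2 := by
    rw [← pow_mul, ← pow_mul, mul_comm o, mul_comm (h + 1 + s), pow_mul, pow_mul]
    norm_num
    rw [pow_add 4 (h + 1) s]
    exact hb.trans (Nat.mul_le_mul_right _ h2.le)
  exact (Nat.pow_le_pow_iff_left (by norm_num)).1 this

omit h2 in
lemma fibre {o : ℕ} {x y : ℤ}
    (hx : Tl s (wd 1 W x) ∧ Bal s (wd 1 W x) ∧ ones (wd 1 W x) = o)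
    (hy : Tl s (wd 1 W y) ∧ Bal s (wd 1 W y) ∧ ones (wd 1 W y) = o)
    (hT : (T 1)^[W] x = (T 1)^[W] y) (hm : (2 : ℤ) ^ (W - (h - 3 * s)) ∣ x - y) : x = y := by
  obtain ⟨t1, t2, ht1, ht2, ht⟩ : ∃ t1 t2, t1 = W - (h - 3 * s) ∧ t2 = h - 3 * s ∧ W = t1 + t2 :=
    ⟨_, _, rfl, rfl, by omega⟩
  rw [← ht1] at hm
  obtain ⟨q, hq⟩ := hm
  have hw1 : wd 1 t1 x = wd 1 t1 y := wd_congr odd1 ⟨q, hq⟩
  set m := (T 1)^[t1] x with hmx
  set m' := (T 1)^[t1] y with hmy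
  have ex : wd 1 W x = wd 1 t1 x ++ wd 1 t2 m := by rw [ht, wd_append]
  have ey : wd 1 W y = wd 1 t1 x ++ wd 1 t2 m' := by rw [ht, wd_append, ← hw1]
  have tx : (T 1)^[W] x = (T 1)^[t2] m := by
    rw [ht, Nat.add_comm, Function.iterate_add_apply]
  have ty : (T 1)^[W] y = (T 1)^[t2] m' := by
    rw [ht, Nat.add_comm, Function.iterate_add_apply]
  have oo : ones (wd 1 t1 x) + ones (wd 1 t2 m) = o := by
    rw [← ones_append, ← ex]; exact hx.2.2
  have oo' : ones (wd 1 t1 x) + ones (wd 1 t2 m') = o := by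
    rw [← ones_append, ← ey]; exact hy.2.2
  have o2 : ones (wd 1 t2 m') = ones (wd 1 t2 m) := by omega
  have i1 := iter_eq odd1 t1 x
  have i2 := iter_eq odd1 t1 y
  have i3 := iter_eq odd1 t2 m
  have i4 := iter_eq odd1 t2 m'
  rw [← hw1] at i2
  rw [← tx] at i3
  rw [← ty, ← hT, o2] at i4
  rw [← hmx] at i1
  rw [← hmy] at i2
  have hmm : m - m' = 3 ^ ones (wd 1 t1 x) * q := by
    have h2t : (2 : ℤ) ^ t1 ≠ 0 := by positivity
    apply mul_left_cancel₀ h2t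
    linear_combination i1 - i2 + 3 ^ ones (wd 1 t1 x) * hq
  have key : (3 : ℤ) ^ o * q = cw (wd 1 t2 m') - cw (wd 1 t2 m) := by
    have h6 : (3 : ℤ) ^ ones (wd 1 t2 m) * (m - m') = cw (wd 1 t2 m') - cw (wd 1 t2 m) := by
      linear_combination i4 - i3
    rw [hmm] at h6
    rw [← oo, pow_add, ← h6]
    ring
  have hb : ∀ z : ℤ, Tl s (wd 1 t2 z) → (cw (wd 1 t2 z) : ℤ) < 3 ^ o := by
    intro z hz
    have h6 := cw_le_of_Tl hz
    rw [wd_length] at h6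
    have h7 := pow_o_ge h1 (o := o) (by
      have := hx.2.1.2
      rwa [wd_length, hx.2.2] at this)
    have h8 : cw (wd 1 t2 z) * 2 ^ s < 3 ^ o * 2 ^ s := by
      calc cw (wd 1 t2 z) * 2 ^ s ≤ t2 * 2 ^ (t2 + s) * 2 ^ s := Nat.mul_le_mul_right _ h6
        _ ≤ W * 2 ^ (t2 + s) * 2 ^ s := by
            gcongr
            omega
        _ < 2 ^ s * 2 ^ (t2 + s) * 2 ^ s := by
            gcongr
        _ = 2 ^ h := by
            rw [← pow_add, ← pow_add]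
            congr 1
            omega
        _ ≤ _ := h7
    exact_mod_cast lt_of_mul_lt_mul_right h8 (Nat.zero_le _)
  have hb1 := hb m (by
    have := hx.1
    rw [ex] at this
    exact Tl_append this)
  have hb2 := hb m' (by
    have := hy.1
    rw [ey] at this
    exact Tl_append this)
  have hq0 : q = 0 := by
    have hc1 : (0 : ℤ) ≤ cw (wd 1 t2 m) := Int.natCast_nonneg _
    have hc2 : (0 : ℤ) ≤ cw (wd 1 t2 m') := Int.natCast_nonneg _
    have h3o : (0 : ℤ) < 3 ^ o := by positivity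
    by_contra hne
    rcases lt_or_gt_of_ne hne with hlt | hgt
    · nlinarith
    · nlinarith
  rw [hq0, mul_zero] at hq
  omega

omit h1 h5 in
lemma window {o : ℕ} {x u : ℤ} (hxu : |x - u| ≤ 2 ^ W)
    (hx : Tl s (wd 1 W x) ∧ Bal s (wd 1 W x) ∧ ones (wd 1 W x) = o) :
    |(T 1)^[W] x - (3 ^ o * u) / 2 ^ W| ≤ 2 ^ (h + s + 2) := by
  have hp : (0 : ℤ) < 2 ^ W := by positivity
  have i1 := iter_eq odd1 W x
  rw [hx.2.2] at i1
  have e1 := Int.mul_ediv_add_emod (3 ^ o * u) (2 ^ W)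
  have a1 := Int.emod_nonneg (3 ^ o * u) hp.ne'
  have b1 := Int.emod_lt_of_pos (3 ^ o * u) hp
  set u' := (3 ^ o * u) / 2 ^ W
  set r := (3 ^ o * u) % 2 ^ W
  have e2 : (2 : ℤ) ^ W * ((T 1)^[W] x - u') = 3 ^ o * (x - u) + cw (wd 1 W x) + r := by
    linear_combination i1 - e1
  have hcw : (cw (wd 1 W x) : ℤ) ≤ 2 ^ W * (W * 2 ^ s) := by
    have := cw_le_of_Tl hx.1
    rw [wd_length] at this
    have h6 : (cw (wd 1 W x) : ℤ) ≤ W * 2 ^ (W + s) := by exact_mod_cast this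
    rw [pow_add] at h6
    linarith
  have hcw0 : (0 : ℤ) ≤ cw (wd 1 W x) := Int.natCast_nonneg _
  have ho : (3 : ℤ) ^ o ≤ 2 ^ (h + 1 + s) := by
    have := pow_o_le h2 (o := o) (s := s) (by
      have := hx.2.1.1
      rwa [wd_length, hx.2.2] at this)
    exact_mod_cast this
  have h3o : (0 : ℤ) < 3 ^ o := by positivity
  have h6 : |(3 : ℤ) ^ o * (x - u)| ≤ 2 ^ W * 3 ^ o := by
    rw [abs_mul, abs_of_pos h3o, mul_comm]
    exact mul_le_mul_of_nonneg_right hxu h3o.le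
  have h7 := abs_le.1 h6
  have h8 : (W : ℤ) * 2 ^ s + 1 ≤ 2 ^ (h + 1 + s) := by
    have h9 : W * 2 ^ s + 1 ≤ 2 ^ (h + 1 + s) := by
      calc W * 2 ^ s + 1 ≤ W * 2 ^ s + 2 ^ s := by
            gcongr
            exact Nat.one_le_two_pow
        _ = (W + 1) * 2 ^ s := by ring
        _ ≤ 2 ^ s * 2 ^ s := by
            gcongr
            omega
        _ = 2 ^ (s + s) := by rw [pow_add]
        _ ≤ 2 ^ (h + 1 + s) := Nat.pow_le_pow_right (by norm_num) (by omega)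
    exact_mod_cast h9
  have h9 : (2 : ℤ) ^ (h + s + 2) = 2 ^ (h + 1 + s) + 2 ^ (h + 1 + s) := by
    rw [show h + s + 2 = (h + 1 + s) + 1 by ring, pow_succ]; ring
  rw [abs_le]
  constructor
  · by_contra hcon
    push Not at hcon
    have h10 : (2 : ℤ) ^ W * ((T 1)^[W] x - u') < 2 ^ W * (-(2 ^ (h + s + 2))) :=
      mul_lt_mul_of_pos_left hcon hp
    have h11 : (2 : ℤ) ^ W * 3 ^ o ≤ 2 ^ W * 2 ^ (h + s + 2) :=
      mul_le_mul_of_nonneg_left (by rw [h9]; have : (0 : ℤ) < 2 ^ (h + 1 + s) := by positivity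
                                    linarith) hp.le
    linarith [h7.1]
  · by_contra hcon
    push Not at hcon
    have h10 : (2 : ℤ) ^ W * (2 ^ (h + s + 2)) < 2 ^ W * ((T 1)^[W] x - u') :=
      mul_lt_mul_of_pos_left hcon hp
    have h11 : (2 : ℤ) ^ W * (3 ^ o + (W * 2 ^ s + 1)) ≤ 2 ^ W * 2 ^ (h + s + 2) :=
      mul_le_mul_of_nonneg_left (by rw [h9]; linarith) hp.le
    linarith [h7.2]

open Classical in
/-- the image of the weight -/
theorem push {o : ℕ} {u : ℤ} {F : Finset ℤ} {g : ℤ → ℝ} (hF : ∀ x ∈ F, |x - u| ≤ 2 ^ W)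
    (hg : ∀ x ∈ F, 0 ≤ g x ∧ g x ≤ 1)
    (hT : ∀ x ∈ F, Tl s (wd 1 W x) ∧ Bal s (wd 1 W x) ∧ ones (wd 1 W x) = o) :
    ∃ (u' : ℤ) (F' : Finset ℤ) (g' : ℤ → ℝ), (∀ v ∈ F', |v - u'| ≤ 2 ^ (h + s + 2)) ∧
      (∀ v ∈ F', 0 ≤ g' v ∧ g' v ≤ 1) ∧
      (∑ v ∈ F', g' v) * 2 ^ (W - (h - 3 * s)) = ∑ x ∈ F, g x ∧
      ∀ B' ⊆ F', ∑ x ∈ F.filter (fun x => (T 1)^[W] x ∈ B'), g x =
        (∑ v ∈ B', g' v) * 2 ^ (W - (h - 3 * s)) := by
  set M : ℝ := 2 ^ (W - (h - 3 * s)) with hM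
  have hM0 : 0 < M := by positivity
  have hsum : ∀ B' ⊆ F.image ((T 1)^[W]), ∑ x ∈ F.filter (fun x => (T 1)^[W] x ∈ B'), g x =
      (∑ v ∈ B', (∑ x ∈ F.filter (fun x => (T 1)^[W] x = v), g x) / M) * M := by
    intro B' hB'
    rw [← sum_div, div_mul_cancel₀ _ hM0.ne']
    rw [← sum_fiberwise_of_maps_to (s := F.filter (fun x => (T 1)^[W] x ∈ B')) (t := B')
      (g := (T 1)^[W]) (fun x hx => (mem_filter.1 hx).2)]
    apply sum_congr rfl
    intro v hv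
    apply sum_congr _ (fun _ _ => rfl)
    ext x
    simp only [mem_filter]
    constructor
    · rintro ⟨⟨a, _⟩, c⟩
      exact ⟨a, c⟩
    · rintro ⟨a, c⟩
      exact ⟨⟨a, by rw [c]; exact hv⟩, c⟩
  refine ⟨(3 ^ o * u) / 2 ^ W, F.image ((T 1)^[W]),
    fun v => (∑ x ∈ F.filter (fun x => (T 1)^[W] x = v), g x) / M, ?_, ?_, ?_, hsum⟩
  · intro v hv
    rw [mem_image] at hv
    obtain ⟨x, hx, rfl⟩ := hv
    exact window h2 h3 h4 (hF x hx) (hT x hx)
  · intro v hv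
    constructor
    · apply div_nonneg _ hM0.le
      exact sum_nonneg (fun x hx => (hg x (mem_filter.1 hx).1).1)
    · rw [div_le_one hM0]
      have h6 : ∑ x ∈ F.filter (fun x => (T 1)^[W] x = v), g x ≤
          (F.filter (fun x => (T 1)^[W] x = v)).card := by
        rw [card_eq_sum_ones]
        push_cast
        exact sum_le_sum (fun x hx => (hg x (mem_filter.1 hx).1).2)
      refine h6.trans ?_
      have h7 : (F.filter (fun x => (T 1)^[W] x = v)).card ≤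
          (Ico (0 : ℤ) (2 ^ (W - (h - 3 * s)))).card := by
        apply card_le_card_of_injOn (fun x => x % 2 ^ (W - (h - 3 * s)))
        · intro x _
          rw [mem_coe, mem_Ico]
          exact ⟨Int.emod_nonneg _ (by positivity), Int.emod_lt_of_pos _ (by positivity)⟩
        · intro x hx y hy hxy
          rw [coe_filter, Set.mem_ofPred_eq] at hx hy
          exact fibre h1 h3 h4 h5 (hT x hx.1) (hT y hy.1) (hx.2.trans hy.2.symm)
            (Int.ModEq.dvd (Int.ModEq.symm hxy))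
      rw [Int.card_Ico] at h7
      have h8 : ((2 : ℤ) ^ (W - (h - 3 * s)) - 0).toNat = 2 ^ (W - (h - 3 * s)) := by
        rw [sub_zero]
        have : ((2 : ℤ) ^ (W - (h - 3 * s))) = ((2 ^ (W - (h - 3 * s)) : ℕ) : ℤ) := by push_cast; rfl
        rw [this, Int.toNat_natCast]
      rw [h8] at h7
      rw [hM]
      exact_mod_cast h7
  · rw [← hsum _ (Subset.refl _)]
    apply sum_congr _ (fun _ _ => rfl)
    rw [filter_true_of_mem]
    intro x hx
    exact mem_image_of_mem _ hx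

end

end Pool.Agent.Q158.Col2
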