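import Pool.Agent.TH930.EBQ.Words

/-! Statistics of the parity words. -/

set_option autoImplicit false

namespace Pool.Agent.Q158.Col2

open Finset
open Pool.Agent.TH930.EBQ

/-- the proper tails of the word do not contain too many ones -/
def Tl (s : ℕ) : List Bool → Prop
  | [] => True
  | (_ :: v) => 3 ^ ones v ≤ 2 ^ (v.length + s) ∧ Tl s v

lemma Tl_append {s : ℕ} {u v : List Bool} (h : Tl s (u ++ v)) : Tl s v := by
  induction u with
  | nil => exact h
  | cons b u ih => exact ih h.2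

lemma cw_le_of_Tl {s : ℕ} {v : List Bool} (h : Tl s v) :
    cw v ≤ v.length * 2 ^ (v.length + s) := by
  induction v with
  | nil => simp
  | cons b v ih =>
    have h1 := ih h.2
    have h2 : cw (b :: v) ≤ 3 ^ ones v + 2 * cw v := by
      cases b <;> simp
    have h3 := h.1
    rw [List.length_cons]
    calc cw (b :: v) ≤ 3 ^ ones v + 2 * cw v := h2
      _ ≤ 2 ^ (v.length + s) + 2 * (v.length * 2 ^ (v.length + s)) := by gcongr
      _ ≤ 2 * 2 ^ (v.length + s) + 2 * (v.length * 2 ^ (v.length + s)) := by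
          gcongr
          exact Nat.le_mul_of_pos_left _ (by norm_num)
      _ = (v.length + 1) * 2 ^ (v.length + 1 + s) := by ring

lemma sum_pow_ones (x : ℝ) (n : ℕ) : ∑ v ∈ words n, x ^ ones v = (1 + x) ^ n := by
  induction n with
  | zero => simp [words]
  | succ n ih =>
    rw [sum_words_succ]
    simp only [ones_cons_true, ones_cons_false]
    rw [pow_succ, ← ih, sum_mul]
    apply sum_congr rfl
    intro v _
    ring

open Classical in
lemma bad_Tl (s n : ℕ) :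
    (∑ v ∈ words n, (if Tl s v then 0 else 1 : ℝ)) * 2 ^ s ≤ n * 2 ^ n := by
  induction n with
  | zero => simp [words, Tl]
  | succ n ih =>
    rw [sum_words_succ]
    have h1 : ∀ v ∈ words n, ∀ b : Bool, (if Tl s (b :: v) then 0 else 1 : ℝ) ≤
        3 ^ ones v / 2 ^ (n + s) + (if Tl s v then 0 else 1 : ℝ) := by
      intro v hv b
      have hl : v.length = n := mem_words.1 hv
      by_cases hT : Tl s v
      · rw [if_pos hT, add_zero]
        by_cases h3 : 3 ^ ones v ≤ 2 ^ (v.length + s)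
        · rw [if_pos (show Tl s (b :: v) from ⟨h3, hT⟩)]
          positivity
        · rw [if_neg (fun h : Tl s (b :: v) => h3 h.1)]
          rw [hl] at h3
          push Not at h3
          rw [le_div_iff₀ (by positivity), one_mul]
          exact_mod_cast h3.le
      · rw [if_neg hT, if_neg (fun h : Tl s (b :: v) => hT h.2)]
        have : (0 : ℝ) ≤ 3 ^ ones v / 2 ^ (n + s) := by positivity
        linarith
    have h2 : ∑ v ∈ words n, ((if Tl s (true :: v) then 0 else 1 : ℝ) +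
        (if Tl s (false :: v) then 0 else 1 : ℝ)) ≤
        ∑ v ∈ words n, (2 * (3 ^ ones v / 2 ^ (n + s)) + 2 * (if Tl s v then 0 else 1 : ℝ)) := by
      apply sum_le_sum
      intro v hv
      have a1 := h1 v hv true
      have a2 := h1 v hv false
      linarith
    have h2' : ∑ v ∈ words n, (2 * ((3 : ℝ) ^ ones v / 2 ^ (n + s)) + 2 * (if Tl s v then 0 else 1 : ℝ)) =
        2 * ((1 + 3) ^ n / 2 ^ (n + s)) + 2 * ∑ v ∈ words n, (if Tl s v then 0 else 1 : ℝ) := by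
      rw [sum_add_distrib, ← mul_sum, ← mul_sum, ← sum_div, sum_pow_ones]
    rw [h2'] at h2
    have h3 : ((1 : ℝ) + 3) ^ n / 2 ^ (n + s) * 2 ^ s = 2 ^ n := by
      rw [pow_add, show ((1 : ℝ) + 3) = 2 * 2 by norm_num, mul_pow]
      field_simp
    calc _ ≤ (2 * ((1 + 3) ^ n / 2 ^ (n + s)) +
        2 * ∑ v ∈ words n, (if Tl s v then 0 else 1 : ℝ)) * 2 ^ s :=
          mul_le_mul_of_nonneg_right h2 (by positivity)
      _ = 2 * (((1 : ℝ) + 3) ^ n / 2 ^ (n + s) * 2 ^ s) +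
        2 * ((∑ v ∈ words n, (if Tl s v then 0 else 1 : ℝ)) * 2 ^ s) := by ring
      _ ≤ 2 * 2 ^ n + 2 * (n * 2 ^ n) := by rw [h3]; linarith
      _ = ((n + 1 : ℕ) : ℝ) * 2 ^ (n + 1) := by push_cast; ring

/-- the balance of the word -/
def Bal (s : ℕ) (v : List Bool) : Prop :=
  9 ^ ones v ≤ 3 ^ v.length * 4 ^ s ∧ 3 ^ v.length ≤ 9 ^ ones v * 4 ^ s

lemma cosh_bound (μ : ℝ) (n : ℕ) : ((3 : ℝ) ^ μ + 3 ^ (-μ)) ^ n ≤
    2 ^ n * Real.exp (n * (μ ^ 2 * (Real.log 3) ^ 2 / 2)) := by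
  have h1 := Real.cosh_le_exp_half_sq (μ * Real.log 3)
  have h2 : (3 : ℝ) ^ μ + 3 ^ (-μ) = 2 * Real.cosh (μ * Real.log 3) := by
    rw [Real.cosh_eq, Real.rpow_def_of_pos (by norm_num), Real.rpow_def_of_pos (by norm_num)]
    rw [show Real.log 3 * μ = μ * Real.log 3 by ring, show Real.log 3 * -μ = -(μ * Real.log 3) by ring]
    ring
  rw [h2, mul_pow, Real.exp_nat_mul]
  apply mul_le_mul_of_nonneg_left _ (by positivity)
  apply pow_le_pow_left₀ (Real.cosh_pos _).le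
  refine h1.trans (le_of_eq ?_)
  congr 1
  ring

open Classical in
lemma bad_Bal (s n : ℕ) (μ : ℝ) (hμ : 0 ≤ μ) :
    ∑ v ∈ words n, (if Bal s v then 0 else 1 : ℝ) ≤
      2 * (2 ^ n * Real.exp (n * (μ ^ 2 * (Real.log 3) ^ 2 / 2) - μ * s * Real.log 4)) := by
  have key : ∀ v ∈ words n, (if Bal s v then 0 else 1 : ℝ) ≤
      ((9 : ℝ) ^ μ) ^ ones v * ((3 : ℝ) ^ (-μ)) ^ n * ((4 : ℝ) ^ (-μ)) ^ s +
      ((9 : ℝ) ^ (-μ)) ^ ones v * ((3 : ℝ) ^ μ) ^ n * ((4 : ℝ) ^ (-μ)) ^ s := by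
    intro v hv
    have hl : v.length = n := mem_words.1 hv
    have p1 : 0 ≤ ((9 : ℝ) ^ μ) ^ ones v * ((3 : ℝ) ^ (-μ)) ^ n * ((4 : ℝ) ^ (-μ)) ^ s := by positivity
    have p2 : 0 ≤ ((9 : ℝ) ^ (-μ)) ^ ones v * ((3 : ℝ) ^ μ) ^ n * ((4 : ℝ) ^ (-μ)) ^ s := by positivity
    by_cases hB : Bal s v
    · rw [if_pos hB]; linarith
    · rw [if_neg hB]
      have e : ∀ (b : ℝ) (hb : 0 < b) (m : ℕ) (ν : ℝ), (b ^ ν) ^ m = (b ^ m) ^ ν := by
        intro b hb m ν
        rw [← Real.rpow_natCast, ← Real.rpow_mul hb.le, mul_comm, Real.rpow_mul hb.le,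
          Real.rpow_natCast]
      have f : ∀ (b : ℝ) (hb : 0 < b) (m : ℕ), (b ^ (-μ)) ^ m = ((b ^ m) ^ μ)⁻¹ := by
        intro b hb m
        rw [e b hb, Real.rpow_neg (by positivity)]
      unfold Bal at hB
      rw [not_and_or] at hB
      rcases hB with h | h
      · push Not at h
        rw [hl] at h
        have h1 : ((3 : ℝ) ^ n * 4 ^ s) ^ μ ≤ ((9 : ℝ) ^ ones v) ^ μ :=
          Real.rpow_le_rpow (by positivity) (by exact_mod_cast h.le) hμ
        rw [Real.mul_rpow (by positivity) (by positivity)] at h1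
        have h2 : 1 ≤ ((9 : ℝ) ^ μ) ^ ones v * ((3 : ℝ) ^ (-μ)) ^ n * ((4 : ℝ) ^ (-μ)) ^ s := by
          rw [e 9 (by norm_num), f 3 (by norm_num), f 4 (by norm_num), mul_assoc, ← mul_inv,
            ← div_eq_mul_inv, le_div_iff₀ (by positivity), one_mul]
          exact h1
        linarith
      · push Not at h
        rw [hl] at h
        have h1 : ((9 : ℝ) ^ ones v * 4 ^ s) ^ μ ≤ ((3 : ℝ) ^ n) ^ μ :=
          Real.rpow_le_rpow (by positivity) (by exact_mod_cast h.le) hμ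
        rw [Real.mul_rpow (by positivity) (by positivity)] at h1
        have h2 : 1 ≤ ((9 : ℝ) ^ (-μ)) ^ ones v * ((3 : ℝ) ^ μ) ^ n * ((4 : ℝ) ^ (-μ)) ^ s := by
          rw [e 3 (by norm_num), f 9 (by norm_num), f 4 (by norm_num),
            show (((9 : ℝ) ^ ones v) ^ μ)⁻¹ * ((3 : ℝ) ^ n) ^ μ * (((4 : ℝ) ^ s) ^ μ)⁻¹ =
              ((3 : ℝ) ^ n) ^ μ * ((((9 : ℝ) ^ ones v) ^ μ) * (((4 : ℝ) ^ s) ^ μ))⁻¹ by
                rw [mul_inv]; ring,
            ← div_eq_mul_inv, le_div_iff₀ (by positivity), one_mul]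
          exact h1
        linarith
  have e1 : (1 + (9 : ℝ) ^ μ) * (3 : ℝ) ^ (-μ) = (3 : ℝ) ^ μ + 3 ^ (-μ) := by
    rw [show (9 : ℝ) = 3 * 3 by norm_num, Real.mul_rpow (by norm_num) (by norm_num), Real.rpow_neg
      (by norm_num)]
    have : (0 : ℝ) < 3 ^ μ := by positivity
    field_simp
    ring
  have e2 : (1 + (9 : ℝ) ^ (-μ)) * (3 : ℝ) ^ μ = (3 : ℝ) ^ μ + 3 ^ (-μ) := by
    rw [show (9 : ℝ) = 3 * 3 by norm_num, Real.mul_rpow (by norm_num) (by norm_num), Real.rpow_neg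
      (by norm_num)]
    have : (0 : ℝ) < 3 ^ μ := by positivity
    field_simp
  have e3 : ((4 : ℝ) ^ (-μ)) ^ s = Real.exp (-(μ * s * Real.log 4)) := by
    rw [← Real.rpow_natCast, ← Real.rpow_mul (by norm_num), Real.rpow_def_of_pos (by norm_num)]
    congr 1
    ring
  refine (sum_le_sum key).trans ?_
  rw [sum_add_distrib, ← sum_mul, ← sum_mul, ← sum_mul, ← sum_mul, sum_pow_ones, sum_pow_ones,
    ← mul_pow, ← mul_pow, e1, e2, e3]
  have h1 := cosh_bound μ n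
  have h2 := mul_le_mul_of_nonneg_right h1 (Real.exp_pos (-(μ * s * Real.log 4))).le
  rw [mul_assoc (2 ^ n : ℝ), ← Real.exp_add, ← sub_eq_add_neg] at h2
  linarith

end Pool.Agent.Q158.Col2
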