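import Pool.Agent.Q158.Col2.Push

/-! The recursion for the popular values. -/

set_option autoImplicit false

namespace Pool.Agent.Q158.Col2

open Finset Filter Topology
open Pool.Agent.TH930.EBQ

theorem lin_le_exp {a : ℝ} (ha : 0 < a) (L : ℝ) :
    ∀ᶠ N : ℕ in atTop, L * ((N : ℝ) + 1) ≤ Real.exp (a * N) := by
  have h1 : Tendsto (fun N : ℕ => (N : ℝ) ^ 1 * Real.exp (-a * N)) atTop (𝓝 0) := by
    have := (Real.tendsto_pow_mul_exp_neg_atTop_nhds_zero 1).comp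
      (Tendsto.const_mul_atTop ha tendsto_natCast_atTop_atTop)
    have h2 := this.const_mul (1 / a)
    rw [mul_zero] at h2
    refine h2.congr (fun N => ?_)
    simp only [Function.comp, pow_one]
    rw [neg_mul]
    field_simp
  have h2 : Tendsto (fun N : ℕ => Real.exp (-a * N)) atTop (𝓝 0) := by
    have := Real.tendsto_exp_neg_atTop_nhds_zero.comp
      (Tendsto.const_mul_atTop ha tendsto_natCast_atTop_atTop)
    refine this.congr (fun N => ?_)
    simp only [Function.comp]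
    rw [neg_mul]
  have h3 := (h1.const_mul L).add (h2.const_mul L)
  rw [mul_zero, add_zero] at h3
  have h4 := h3.eventually_le_const (show (0 : ℝ) < 1 by norm_num)
  filter_upwards [h4] with N hN
  rw [pow_one, ← mul_assoc, ← add_mul] at hN
  have h5 : Real.exp (-a * N) * Real.exp (a * N) = 1 := by
    rw [← Real.exp_add]; simp
  have h6 := Real.exp_pos (a * N)
  calc L * ((N : ℝ) + 1) = ((L * N + L) * Real.exp (-a * N)) * Real.exp (a * N) := by
        rw [mul_assoc, h5]; ring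
    _ ≤ 1 * Real.exp (a * N) := mul_le_mul_of_nonneg_right hN h6.le
    _ = _ := one_mul _

theorem lin_le_two {a : ℝ} (ha : 0 < a) (L : ℝ) :
    ∀ᶠ N : ℕ in atTop, L * ((N : ℝ) + 1) ≤ (2 : ℝ) ^ (a * N) := by
  have hl2 : 0 < Real.log 2 := Real.log_pos (by norm_num)
  filter_upwards [lin_le_exp (mul_pos hl2 ha) L] with N hN
  rw [Real.rpow_def_of_pos (by norm_num), ← mul_assoc]
  exact hN

/-- the popular values at exponent `θ` -/
def P (θ : ℝ) : Prop := ∃ (δ c : ℝ) (K : ℕ), 0 < δ ∧ δ ≤ 1 ∧ 0 < c ∧ c ≤ 1 ∧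
  ∀ (W : ℕ) (u : ℤ) (F : Finset ℤ) (g : ℤ → ℝ), (∀ x ∈ F, |x - u| ≤ 2 ^ W) →
    (∀ x ∈ F, 0 ≤ g x ∧ g x ≤ 1) → (2 : ℝ) ^ ((1 - δ) * W) ≤ ∑ x ∈ F, g x →
    ∃ B ⊆ F, ∃ τ ≤ K * W, (∀ x ∈ B, ∀ y ∈ B, (T 1)^[τ] x = (T 1)^[τ] y ∧
      ones (wd 1 τ x) = ones (wd 1 τ y)) ∧
      c * (2 : ℝ) ^ (-(θ * W)) * ∑ x ∈ F, g x ≤ ∑ x ∈ B, g x

theorem single {W : ℕ} {u : ℤ} {F : Finset ℤ} {g : ℤ → ℝ} (hF : ∀ x ∈ F, |x - u| ≤ 2 ^ W)
    (hg : ∀ x ∈ F, 0 ≤ g x ∧ g x ≤ 1) (hpos : 0 < ∑ x ∈ F, g x) :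
    ∃ x ∈ F, ∑ x ∈ F, g x ≤ 3 * 2 ^ W * g x := by
  have hne : F.Nonempty := by
    rw [nonempty_iff_ne_empty]
    rintro rfl
    simp at hpos
  obtain ⟨x, hx, hmax⟩ := exists_max_image F g hne
  refine ⟨x, hx, ?_⟩
  have h1 : ∑ y ∈ F, g y ≤ F.card * g x := by
    rw [← nsmul_eq_mul]
    exact sum_le_card_nsmul _ _ _ hmax
  have h2 : F ⊆ Icc (u - (2 : ℤ) ^ W) (u + 2 ^ W) := by
    intro x hx
    rw [mem_Icc]
    have := abs_le.1 (hF x hx)
    constructor <;> linarith [this.1, this.2]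
  have h3 := card_le_card h2
  rw [Int.card_Icc] at h3
  have hpos : (1 : ℤ) ≤ 2 ^ W := one_le_pow₀ (by norm_num)
  have h4 : ((u + (2 : ℤ) ^ W + 1 - (u - 2 ^ W)).toNat : ℤ) ≤ 3 * (2 ^ W) := by
    rw [Int.toNat_of_nonneg (by linarith)]
    linarith
  have h5 : (F.card : ℤ) ≤ 3 * (2 ^ W) := le_trans (by exact_mod_cast h3) h4
  have h6 : (F.card : ℝ) ≤ 3 * 2 ^ W := by exact_mod_cast h5
  exact h1.trans (mul_le_mul_of_nonneg_right h6 (hg x hx).1)

theorem P_one : P 1 := by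
  refine ⟨1, 1 / 3, 0, by norm_num, by norm_num, by norm_num, by norm_num, ?_⟩
  intro W u F g hF hg hs
  have hpos : 0 < ∑ x ∈ F, g x := lt_of_lt_of_le (by positivity) hs
  obtain ⟨x, hx, h⟩ := single hF hg hpos
  refine ⟨{x}, by simpa using hx, 0, by simp, ?_, ?_⟩
  · intro y hy z hz
    rw [mem_singleton] at hy hz
    rw [hy, hz]
    exact ⟨rfl, rfl⟩
  · rw [sum_singleton, one_mul, Real.rpow_neg (by norm_num), Real.rpow_natCast]
    have h2 : (0 : ℝ) < 2 ^ W := by positivity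
    calc 1 / 3 * ((2 : ℝ) ^ W)⁻¹ * ∑ x ∈ F, g x ≤ 1 / 3 * ((2 : ℝ) ^ W)⁻¹ * (3 * 2 ^ W * g x) :=
          mul_le_mul_of_nonneg_left h (by positivity)
      _ = g x := by field_simp

theorem P_mono {θ θ' : ℝ} (h : θ ≤ θ') (hP : P θ) : P θ' := by
  obtain ⟨δ, c, K, h1, h2, h3, h4, h5⟩ := hP
  refine ⟨δ, c, K, h1, h2, h3, h4, fun W u F g hF hg hs => ?_⟩
  obtain ⟨B, hB, τ, hτ, hco, hsum⟩ := h5 W u F g hF hg hs
  refine ⟨B, hB, τ, hτ, hco, le_trans ?_ hsum⟩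
  have hpos : 0 ≤ ∑ x ∈ F, g x := sum_nonneg (fun x hx => (hg x hx).1)
  apply mul_le_mul_of_nonneg_right _ hpos
  apply mul_le_mul_of_nonneg_left _ h3.le
  apply Real.rpow_le_rpow_of_exponent_le (by norm_num)
  have : θ * W ≤ θ' * W := mul_le_mul_of_nonneg_right h (Nat.cast_nonneg W)
  linarith

/-- the numeric facts for large `W` -/
theorem asym {ε : ℝ} (h0 : 0 < ε) (h1 : ε ≤ 1 / 16) : ∀ᶠ W : ℕ in atTop,
    W < 2 ^ ⌊ε * W⌋₊ ∧ 20 ≤ W ∧
    3 * (W * 2 ^ W / 2 ^ ⌊ε * W⌋₊ + 2 * (2 ^ W * Real.exp (W * (ε ^ 2 * (Real.log 3) ^ 2 / 2) -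
      ε * ⌊ε * W⌋₊ * Real.log 4))) ≤ 1 / 2 * (2 : ℝ) ^ ((1 - ε ^ 2 / 2) * W) := by
  have hl2 : 0 < Real.log 2 := Real.log_pos (by norm_num)
  have hl2' := Real.log_two_lt_d9
  have hl4 : Real.log 4 = 2 * Real.log 2 := by
    rw [show (4 : ℝ) = 2 ^ 2 by norm_num, Real.log_pow]; push_cast; ring
  have hl3 : Real.log 3 ≤ 8 / 5 * Real.log 2 := by
    have h : Real.log ((3 : ℝ) ^ 5) ≤ Real.log ((2 : ℝ) ^ 8) :=
      Real.log_le_log (by positivity) (by norm_num)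
    rw [Real.log_pow, Real.log_pow] at h
    push_cast at h
    linarith
  have hl30 : 0 < Real.log 3 := Real.log_pos (by norm_num)
  have hl3s : (Real.log 3) ^ 2 / 2 ≤ 9 / 10 * Real.log 2 := by
    have : (Real.log 3) ^ 2 ≤ (8 / 5 * Real.log 2) ^ 2 := pow_le_pow_left₀ hl30.le hl3 2
    nlinarith
  filter_upwards [lin_le_two h0 2, eventually_ge_atTop 20,
    lin_le_two (show 0 < ε - ε ^ 2 / 2 by nlinarith) 24,
    lin_le_two (show 0 < ε ^ 2 / 2 by positivity) 48] with W a1 a2 a3 a4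
  have hW : (20 : ℝ) ≤ W := by exact_mod_cast a2
  set s := ⌊ε * W⌋₊ with hs
  have hs1 : ε * W - 1 ≤ s := by
    have := Nat.lt_floor_add_one (ε * W)
    linarith
  have h2s : (2 : ℝ) ^ (ε * W) ≤ 2 * 2 ^ s := by
    have h3 : (2 : ℝ) ^ (ε * W) ≤ (2 : ℝ) ^ ((s : ℝ) + 1) :=
      Real.rpow_le_rpow_of_exponent_le (by norm_num) (by linarith)
    rw [Real.rpow_add (by norm_num), Real.rpow_one, Real.rpow_natCast] at h3
    linarith
  refine ⟨?_, a2, ?_⟩
  · have : (W : ℝ) < 2 ^ s := by linarith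
    exact_mod_cast this
  · have p2W : (0 : ℝ) < 2 ^ W := by positivity
    have e0 : (2 : ℝ) ^ ((1 - ε ^ 2 / 2) * W) = 2 ^ W * (2 : ℝ) ^ (-(ε ^ 2 / 2 * W)) := by
      rw [← Real.rpow_natCast (2 : ℝ) W, ← Real.rpow_add (by norm_num)]
      congr 1
      ring
    have b1 : W * (2 : ℝ) ^ W / 2 ^ s ≤ 1 / 12 * (2 ^ W * (2 : ℝ) ^ (-(ε ^ 2 / 2 * W))) := by
      rw [div_le_iff₀ (by positivity)]
      have e1 : (2 : ℝ) ^ (ε * W) = (2 : ℝ) ^ ((ε - ε ^ 2 / 2) * W) * (2 : ℝ) ^ (ε ^ 2 / 2 * W) := by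
        rw [← Real.rpow_add (by norm_num)]
        congr 1
        ring
      have e2 : (2 : ℝ) ^ (-(ε ^ 2 / 2 * W)) * (2 : ℝ) ^ (ε ^ 2 / 2 * W) = 1 := by
        rw [← Real.rpow_add (by norm_num)]; simp
      have p3 : (0 : ℝ) < (2 : ℝ) ^ (-(ε ^ 2 / 2 * W)) := by positivity
      have e3 : (24 : ℝ) * (W + 1) ≤ (2 : ℝ) ^ (-(ε ^ 2 / 2 * W)) * (2 * 2 ^ s) := by
        calc (24 : ℝ) * (W + 1) ≤ (2 : ℝ) ^ ((ε - ε ^ 2 / 2) * W) := a3
          _ = (2 : ℝ) ^ (-(ε ^ 2 / 2 * W)) * (2 : ℝ) ^ (ε * W) := by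
              rw [e1]
              calc _ = (2 : ℝ) ^ ((ε - ε ^ 2 / 2) * W) * 1 := (mul_one _).symm
                _ = _ := by rw [← e2]; ring
          _ ≤ _ := mul_le_mul_of_nonneg_left h2s p3.le
      have e4 : (W : ℝ) ≤ 1 / 12 * ((2 : ℝ) ^ (-(ε ^ 2 / 2 * W)) * 2 ^ s) := by linarith
      calc (W : ℝ) * 2 ^ W ≤ 1 / 12 * ((2 : ℝ) ^ (-(ε ^ 2 / 2 * W)) * 2 ^ s) * 2 ^ W :=
            mul_le_mul_of_nonneg_right e4 p2W.le
        _ = _ := by ring
    have b2 : Real.exp (W * (ε ^ 2 * (Real.log 3) ^ 2 / 2) - ε * s * Real.log 4) ≤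
        1 / 24 * (2 : ℝ) ^ (-(ε ^ 2 / 2 * W)) := by
      have c1 : (W : ℝ) * (ε ^ 2 * (Real.log 3) ^ 2 / 2) - ε * s * Real.log 4 ≤
          Real.log 2 * (-(ε ^ 2 / 2 * W)) + (-(Real.log 2 * (ε ^ 2 / 2 * W)) + Real.log 2) := by
        have d1 : (W : ℝ) * (ε ^ 2 * (Real.log 3) ^ 2 / 2) ≤ W * ε ^ 2 * (9 / 10 * Real.log 2) := by
          have : (0 : ℝ) ≤ W * ε ^ 2 := by positivity
          calc (W : ℝ) * (ε ^ 2 * (Real.log 3) ^ 2 / 2) = W * ε ^ 2 * ((Real.log 3) ^ 2 / 2) := by ring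
            _ ≤ _ := mul_le_mul_of_nonneg_left hl3s this
        have d2 : ε * (ε * W - 1) * Real.log 4 ≤ ε * s * Real.log 4 := by
          rw [hl4]
          apply mul_le_mul_of_nonneg_right _ (by linarith)
          exact mul_le_mul_of_nonneg_left hs1 h0.le
        rw [hl4] at d2 ⊢
        have d3 : 2 * ε * Real.log 2 ≤ Real.log 2 := by nlinarith
        have d4 : 0 ≤ W * ε ^ 2 * Real.log 2 := by positivity
        nlinarith
      have c2 := Real.exp_le_exp.2 c1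
      rw [Real.exp_add, Real.exp_add, Real.exp_log (by norm_num)] at c2
      have c3 : Real.exp (Real.log 2 * (-(ε ^ 2 / 2 * W))) = (2 : ℝ) ^ (-(ε ^ 2 / 2 * W)) := by
        rw [Real.rpow_def_of_pos (by norm_num)]
      have c4 : Real.exp (-(Real.log 2 * (ε ^ 2 / 2 * W))) * 2 ≤ 1 / 24 := by
        rw [Real.exp_neg, ← Real.rpow_def_of_pos (by norm_num)]
        have : (48 : ℝ) ≤ (2 : ℝ) ^ (ε ^ 2 / 2 * W) := by
          refine le_trans ?_ a4
          nlinarith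
        rw [inv_mul_le_iff₀ (by positivity)]
        linarith
      rw [c3] at c2
      refine c2.trans ?_
      have p3 : (0 : ℝ) < (2 : ℝ) ^ (-(ε ^ 2 / 2 * W)) := by positivity
      calc _ ≤ (2 : ℝ) ^ (-(ε ^ 2 / 2 * W)) * (1 / 24) := mul_le_mul_of_nonneg_left c4 p3.le
        _ = _ := by ring
    rw [e0]
    have b3 := mul_le_mul_of_nonneg_left b2 p2W.le
    linarith

theorem h_facts (W : ℕ) : ∃ h : ℕ, 4 ^ h ≤ 3 ^ W ∧ 3 ^ W < 4 ^ (h + 1) ∧ 3 * W < 4 * (h + 1) ∧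
    10 * h ≤ 8 * W := by
  have h1 : 4 ^ (Nat.log 2 (3 ^ W) / 2) ≤ 3 ^ W := by
    calc 4 ^ (Nat.log 2 (3 ^ W) / 2) = 2 ^ (2 * (Nat.log 2 (3 ^ W) / 2)) := by
          rw [pow_mul]; norm_num
      _ ≤ 2 ^ Nat.log 2 (3 ^ W) := Nat.pow_le_pow_right (by norm_num) (Nat.mul_div_le _ 2)
      _ ≤ 3 ^ W := Nat.pow_log_le_self 2 (by positivity)
  have h2 : 3 ^ W < 4 ^ (Nat.log 2 (3 ^ W) / 2 + 1) := by
    calc 3 ^ W < 2 ^ (Nat.log 2 (3 ^ W) + 1) := Nat.lt_pow_succ_log_self (by norm_num) _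
      _ ≤ 2 ^ (2 * (Nat.log 2 (3 ^ W) / 2 + 1)) := Nat.pow_le_pow_right (by norm_num) (by omega)
      _ = _ := by rw [pow_mul]; norm_num
  refine ⟨Nat.log 2 (3 ^ W) / 2, h1, h2, ?_, ?_⟩
  · have h3 : 2 ^ (3 * W) < 2 ^ (4 * (Nat.log 2 (3 ^ W) / 2 + 1)) := by
      calc 2 ^ (3 * W) = 8 ^ W := by rw [pow_mul]; norm_num
        _ ≤ 9 ^ W := Nat.pow_le_pow_left (by norm_num) W
        _ = (3 ^ W) ^ 2 := by rw [← pow_mul, mul_comm, pow_mul]; norm_num
        _ < (4 ^ (Nat.log 2 (3 ^ W) / 2 + 1)) ^ 2 := Nat.pow_lt_pow_left h2 (by norm_num)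
        _ = 2 ^ (4 * (Nat.log 2 (3 ^ W) / 2 + 1)) := by
            rw [← pow_mul, show (4 : ℕ) = 2 ^ 2 by norm_num, ← pow_mul]
            congr 1
            ring
    exact (Nat.pow_lt_pow_iff_right (by norm_num)).1 h3
  · have h3 : 2 ^ (10 * (Nat.log 2 (3 ^ W) / 2)) ≤ 2 ^ (8 * W) := by
      calc 2 ^ (10 * (Nat.log 2 (3 ^ W) / 2)) = (4 ^ (Nat.log 2 (3 ^ W) / 2)) ^ 5 := by
            rw [← pow_mul, show (4 : ℕ) = 2 ^ 2 by norm_num, ← pow_mul]
            congr 1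
            ring
        _ ≤ (3 ^ W) ^ 5 := Nat.pow_le_pow_left h1 5
        _ = 243 ^ W := by rw [← pow_mul, mul_comm, pow_mul]; norm_num
        _ ≤ 256 ^ W := Nat.pow_le_pow_left (by norm_num) W
        _ = 2 ^ (8 * W) := by rw [pow_mul]; norm_num
    exact (Nat.pow_le_pow_iff_right (by norm_num)).1 h3

theorem P_step {θ : ℝ} (hθ0 : 0 < θ) (hθ1 : θ ≤ 1) (hP : P θ) : P (9 / 10 * θ) := by
  classical
  obtain ⟨δ, c, K, hδ0, hδ1, hc0, hc1, hP⟩ := hP
  set ε : ℝ := δ / 16 with hε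
  have hε0 : 0 < ε := by positivity
  have hε1 : ε ≤ 1 / 16 := by rw [hε]; linarith
  obtain ⟨W0, hW0⟩ := eventually_atTop.1 ((asym hε0 hε1).and
    ((lin_le_two (show 0 < 2 / 5 * δ by positivity) 16).and
      (lin_le_two (show 0 < 3 / 80 * θ by positivity) 8)))
  have hδ' : ε ^ 2 / 2 ≤ δ / 16 := by nlinarith
  refine ⟨ε ^ 2 / 2, c / (3 * 2 ^ W0), K + 1, by positivity, by nlinarith, by positivity, ?_, ?_⟩
  · rw [div_le_one (by positivity)]
    have : (1 : ℝ) ≤ 2 ^ W0 := one_le_pow₀ (by norm_num)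
    linarith
  intro W u F g hF hg hs
  have hpos : 0 < ∑ x ∈ F, g x := lt_of_lt_of_le (by positivity) hs
  rcases lt_or_ge W W0 with hlt | hge
  · obtain ⟨x, hx, h⟩ := single hF hg hpos
    refine ⟨{x}, by simpa using hx, 0, by simp, ?_, ?_⟩
    · intro y hy z hz
      rw [mem_singleton] at hy hz
      rw [hy, hz]
      exact ⟨rfl, rfl⟩
    · rw [sum_singleton]
      have h2 : (2 : ℝ) ^ W ≤ 2 ^ W0 := pow_le_pow_right₀ (by norm_num) hlt.le
      have h3 : (2 : ℝ) ^ (-(9 / 10 * θ * W)) ≤ 1 := by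
        apply Real.rpow_le_one_of_one_le_of_nonpos (by norm_num)
        have : 0 ≤ 9 / 10 * θ * W := by positivity
        linarith
      have hgx := (hg x hx).1
      calc c / (3 * 2 ^ W0) * (2 : ℝ) ^ (-(9 / 10 * θ * W)) * ∑ x ∈ F, g x
          ≤ 1 / (3 * 2 ^ W0) * 1 * ∑ x ∈ F, g x := by gcongr
        _ ≤ 1 / (3 * 2 ^ W0) * 1 * (3 * 2 ^ W * g x) :=
            mul_le_mul_of_nonneg_left h (by positivity)
        _ ≤ 1 / (3 * 2 ^ W0) * 1 * (3 * 2 ^ W0 * g x) := by gcongr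
        _ = g x := by field_simp
  · obtain ⟨⟨b1, b2, b3⟩, b4, b5⟩ := hW0 W hge
    set s := ⌊ε * W⌋₊ with hsd
    have hsε : (s : ℝ) ≤ ε * W := Nat.floor_le (by positivity)
    obtain ⟨h, f1, f2, f3, f4⟩ := h_facts W
    have hWr : (20 : ℝ) ≤ W := by exact_mod_cast b2
    have f3r : (3 : ℝ) * W < 4 * (h + 1) := by exact_mod_cast f3
    have f4r : (10 : ℝ) * h ≤ 8 * W := by exact_mod_cast f4
    have hs16 : (s : ℝ) ≤ 1 / 16 * W :=
      hsε.trans (mul_le_mul_of_nonneg_right hε1 (Nat.cast_nonneg W))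
    have g3 : 3 * s ≤ h := by
      have : (3 : ℝ) * s ≤ h := by linarith
      exact_mod_cast this
    have g5 : h + s + 2 ≤ W := by
      have : (h : ℝ) + s + 2 ≤ W := by linarith
      exact_mod_cast this
    -- typical part
    obtain ⟨Q, hQ⟩ : ∃ Q : List Bool → Prop, ∀ v, Q v ↔ Tl s v ∧ Bal s v :=
      ⟨_, fun _ => Iff.rfl⟩
    have hbad := bad_mass hF hg Q
    have hbad2 : ∑ v ∈ words W, (if Q v then 0 else 1 : ℝ) ≤
        W * 2 ^ W / 2 ^ s + 2 * (2 ^ W * Real.exp (W * (ε ^ 2 * (Real.log 3) ^ 2 / 2) -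
      ε * s * Real.log 4)) := by
      have e1 : ∑ v ∈ words W, (if Q v then 0 else 1 : ℝ) ≤
          ∑ v ∈ words W, ((if Tl s v then 0 else 1 : ℝ) + (if Bal s v then 0 else 1 : ℝ)) := by
        apply sum_le_sum
        intro v _
        by_cases t1 : Tl s v
        · by_cases t2 : Bal s v
          · rw [if_pos ((hQ v).2 ⟨t1, t2⟩), if_pos t1, if_pos t2]; norm_num
          · rw [if_neg (fun h : Q v => t2 ((hQ v).1 h).2), if_pos t1, if_neg t2]; norm_num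
        · rw [if_neg (fun h : Q v => t1 ((hQ v).1 h).1), if_neg t1]
          have : (0 : ℝ) ≤ (if Bal s v then 0 else 1 : ℝ) := by split_ifs <;> norm_num
          linarith
      rw [sum_add_distrib] at e1
      have e2 := bad_Tl s W
      rw [← le_div_iff₀ (by positivity)] at e2
      have e3 := bad_Bal s W ε hε0.le
      linarith
    have hhalf : 1 / 2 * ∑ x ∈ F, g x ≤ ∑ x ∈ F.filter (fun x => Q (wd 1 W x)), g x := by
      have e1 := sum_filter_add_sum_filter_not F (fun x => Q (wd 1 W x)) g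
      linarith
    -- popular number of odd steps
    have hpop : ∃ o : ℕ, 1 / (2 * ((W : ℝ) + 1)) * ∑ x ∈ F, g x ≤
        ∑ x ∈ F.filter (fun x => Q (wd 1 W x) ∧ ones (wd 1 W x) = o), g x := by
      by_contra hcon
      push Not at hcon
      have e1 : ∑ x ∈ F.filter (fun x => Q (wd 1 W x)), g x =
          ∑ o ∈ range (W + 1), ∑ x ∈ F.filter (fun x => Q (wd 1 W x) ∧ ones (wd 1 W x) = o), g x := by
        rw [← sum_fiberwise_of_maps_to (s := F.filter (fun x => Q (wd 1 W x))) (t := range (W + 1))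
          (g := fun x => ones (wd 1 W x))]
        · apply sum_congr rfl
          intro o _
          rw [filter_filter]
        · intro x _
          have := ones_le_length (wd 1 W x)
          rw [wd_length] at this
          rw [mem_range]
          omega
      have e2 : ∑ o ∈ range (W + 1),
          ∑ x ∈ F.filter (fun x => Q (wd 1 W x) ∧ ones (wd 1 W x) = o), g x <
          ∑ _o ∈ range (W + 1), 1 / (2 * ((W : ℝ) + 1)) * ∑ x ∈ F, g x :=
        sum_lt_sum_of_nonempty ⟨0, by simp⟩ (fun o _ => hcon o)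
      rw [← e1, sum_const, card_range, nsmul_eq_mul] at e2
      have e3 : ((W + 1 : ℕ) : ℝ) * (1 / (2 * ((W : ℝ) + 1)) * ∑ x ∈ F, g x) =
          1 / 2 * ∑ x ∈ F, g x := by
        push_cast
        field_simp
      rw [e3] at e2
      linarith
    obtain ⟨o, ho⟩ := hpop
    set Fo := F.filter (fun x => Q (wd 1 W x) ∧ ones (wd 1 W x) = o) with hFo
    have hFo1 : ∀ x ∈ Fo, x ∈ F ∧ Tl s (wd 1 W x) ∧ Bal s (wd 1 W x) ∧ ones (wd 1 W x) = o := by
      intro x hx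
      rw [hFo, mem_filter] at hx
      exact ⟨hx.1, ((hQ _).1 hx.2.1).1, ((hQ _).1 hx.2.1).2, hx.2.2⟩
    obtain ⟨u', F', g', hF', hg', hsum', hB'⟩ := push f1 f2 g3 b1 (by omega)
      (fun x hx => hF x (hFo1 x hx).1) (fun x hx => hg x (hFo1 x hx).1)
      (fun x hx => (hFo1 x hx).2)
    set M : ℝ := 2 ^ (W - (h - 3 * s)) with hM
    have hM0 : 0 < M := by positivity
    have hMe : M = (2 : ℝ) ^ ((W : ℝ) - h + 3 * s) := by
      rw [hM, ← Real.rpow_natCast]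
      congr 1
      rw [Nat.cast_sub (by omega), Nat.cast_sub g3]
      push_cast
      ring
    have hdens : (2 : ℝ) ^ ((1 - δ) * ((h + s + 2 : ℕ) : ℝ)) ≤ ∑ v ∈ F', g' v := by
      have e1 : (2 : ℝ) ^ ((1 - δ) * ((h + s + 2 : ℕ) : ℝ)) * M ≤ (∑ v ∈ F', g' v) * M := by
        rw [hsum']
        refine le_trans ?_ ho
        refine le_trans ?_ (mul_le_mul_of_nonneg_left hs (by positivity))
        rw [one_div, ← div_eq_inv_mul, le_div_iff₀ (by positivity)]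
        have e2 : 2 * ((W : ℝ) + 1) ≤ (2 : ℝ) ^ (2 / 5 * δ * W - 3) := by
          rw [Real.rpow_sub (by norm_num), show (2 : ℝ) ^ (3 : ℝ) = 8 by norm_num]
          linarith
        calc (2 : ℝ) ^ ((1 - δ) * ((h + s + 2 : ℕ) : ℝ)) * M * (2 * ((W : ℝ) + 1))
            ≤ (2 : ℝ) ^ ((1 - δ) * ((h + s + 2 : ℕ) : ℝ)) * M * (2 : ℝ) ^ (2 / 5 * δ * W - 3) :=
              mul_le_mul_of_nonneg_left e2 (by positivity)
          _ = (2 : ℝ) ^ ((1 - δ) * ((h + s + 2 : ℕ) : ℝ) + ((W : ℝ) - h + 3 * s) +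
              (2 / 5 * δ * W - 3)) := by
              rw [hMe, ← Real.rpow_add (by norm_num), ← Real.rpow_add (by norm_num)]
          _ ≤ (2 : ℝ) ^ ((1 - ε ^ 2 / 2) * W) := by
              apply Real.rpow_le_rpow_of_exponent_le (by norm_num)
              push_cast
              have k1 : δ * (3 / 4 * W) ≤ δ * (h + s + 2) := by
                apply mul_le_mul_of_nonneg_left _ hδ0.le
                have : (0 : ℝ) ≤ s := Nat.cast_nonneg s
                linarith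
              have k2 : (4 : ℝ) * s ≤ 1 / 4 * δ * W := by
                rw [hε] at hsε
                linarith
              have k3 : ε ^ 2 / 2 * W ≤ δ / 16 * W :=
                mul_le_mul_of_nonneg_right hδ' (by positivity)
              nlinarith
      exact le_of_mul_le_mul_right e1 hM0
    obtain ⟨B', hBs, τ, hτ, hco, hsumB⟩ := hP (h + s + 2) u' F' g' hF' hg' hdens
    refine ⟨Fo.filter (fun x => (T 1)^[W] x ∈ B'),
      (filter_subset _ _).trans (filter_subset _ _), W + τ, ?_, ?_, ?_⟩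
    · have : K * (h + s + 2) ≤ K * W := Nat.mul_le_mul_left K g5
      have e : (K + 1) * W = K * W + W := by ring
      omega
    · intro x hx y hy
      rw [mem_filter] at hx hy
      obtain ⟨h6, h7⟩ := hco _ hx.2 _ hy.2
      constructor
      · rw [Nat.add_comm, Function.iterate_add_apply, Function.iterate_add_apply]
        exact h6
      · rw [wd_append, wd_append, ones_append, ones_append, (hFo1 x hx.1).2.2.2,
          (hFo1 y hy.1).2.2.2, h7]
    · rw [hB' B' hBs]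
      have e1 := mul_le_mul_of_nonneg_right hsumB hM0.le
      refine le_trans ?_ e1
      rw [mul_assoc (c * (2 : ℝ) ^ (-(θ * ((h + s + 2 : ℕ) : ℝ)))), hsum']
      have e2 : c * (2 : ℝ) ^ (-(θ * ((h + s + 2 : ℕ) : ℝ))) *
          (1 / (2 * ((W : ℝ) + 1)) * ∑ x ∈ F, g x) ≤
          c * (2 : ℝ) ^ (-(θ * ((h + s + 2 : ℕ) : ℝ))) * ∑ x ∈ Fo, g x :=
        mul_le_mul_of_nonneg_left ho (by positivity)
      refine le_trans ?_ e2
      have e3 : (2 : ℝ) ^ (-(9 / 10 * θ * W)) ≤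
          (2 : ℝ) ^ (-(θ * ((h + s + 2 : ℕ) : ℝ))) * (1 / (2 * ((W : ℝ) + 1))) := by
        rw [mul_one_div, le_div_iff₀ (by positivity)]
        have e4 : 2 * ((W : ℝ) + 1) ≤ (2 : ℝ) ^ (3 / 80 * θ * W - 2) := by
          rw [Real.rpow_sub (by norm_num), show (2 : ℝ) ^ (2 : ℝ) = 4 by norm_num]
          linarith
        calc (2 : ℝ) ^ (-(9 / 10 * θ * W)) * (2 * ((W : ℝ) + 1))
            ≤ (2 : ℝ) ^ (-(9 / 10 * θ * W)) * (2 : ℝ) ^ (3 / 80 * θ * W - 2) :=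
              mul_le_mul_of_nonneg_left e4 (by positivity)
          _ = (2 : ℝ) ^ (-(9 / 10 * θ * W) + (3 / 80 * θ * W - 2)) := by
              rw [Real.rpow_add (by norm_num)]
          _ ≤ _ := by
              apply Real.rpow_le_rpow_of_exponent_le (by norm_num)
              push_cast
              have k1 : θ * (h + s + 2) ≤ θ * (69 / 80 * W + 2) :=
                mul_le_mul_of_nonneg_left (by linarith) hθ0.le
              nlinarith
      have hc' : c / (3 * 2 ^ W0) ≤ c := by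
        apply div_le_self hc0.le
        have : (1 : ℝ) ≤ 2 ^ W0 := one_le_pow₀ (by norm_num)
        linarith
      calc c / (3 * 2 ^ W0) * (2 : ℝ) ^ (-(9 / 10 * θ * W)) * ∑ x ∈ F, g x
          ≤ c * ((2 : ℝ) ^ (-(θ * ((h + s + 2 : ℕ) : ℝ))) * (1 / (2 * ((W : ℝ) + 1)))) *
            ∑ x ∈ F, g x := by gcongr
        _ = _ := by ring

theorem P_all {θ : ℝ} (hθ : 0 < θ) : P θ := by
  have h1 : ∀ n : ℕ, P ((9 / 10) ^ n) := by
    intro n
    induction n with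
    | zero => rw [pow_zero]; exact P_one
    | succ n ih =>
      rw [pow_succ']
      exact P_step (by positivity) (pow_le_one₀ (by norm_num) (by norm_num)) ih
  obtain ⟨n, hn⟩ := exists_pow_lt_of_lt_one hθ (show (9 / 10 : ℝ) < 1 by norm_num)
  exact P_mono hn.le (h1 n)

end Pool.Agent.Q158.Col2
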